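import Mathlib

set_option autoImplicit false

open Finset

namespace Pool.Agent.Lib.MP_de94cf_nt

def tau (n : ℕ) : ℕ := n.divisors.card

lemma tau_mul_le (a b : ℕ) : tau (a * b) ≤ tau a * tau b := by
  unfold tau
  rw [Nat.divisors_mul]
  exact card_mul_le

lemma tau_pos {n : ℕ} (h : n ≠ 0) : 1 ≤ tau n :=
  card_pos.mpr ⟨1, Nat.one_mem_divisors.mpr h⟩

lemma exists_small_divisor (m : ℕ) (hm : m ≠ 0) :
    ∃ d, d ∣ m ∧ d * d ≤ m ∧ tau m ≤ 2 * tau d ^ 3 := by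
  obtain ⟨d, hd, hmax⟩ := exists_max_image (m.divisors.filter (fun d => d * d ≤ m)) id
    ⟨1, mem_filter.mpr ⟨Nat.one_mem_divisors.mpr hm, by omega⟩⟩
  obtain ⟨hd1, hd2⟩ := mem_filter.mp hd
  obtain ⟨e, he⟩ := Nat.dvd_of_mem_divisors hd1
  have hd0 : d ≠ 0 := by rintro rfl; simp at he; exact hm he
  have he0 : e ≠ 0 := by rintro rfl; simp at he; exact hm he
  have t1 := tau_pos hd0
  have cube : tau d ≤ tau d ^ 3 := Nat.le_self_pow (by norm_num) _
  by_cases h1 : e = 1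
  · refine ⟨d, ⟨e, he⟩, hd2, ?_⟩
    rw [he, h1, mul_one]; omega
  by_cases hp : e.Prime
  · refine ⟨d, ⟨e, he⟩, hd2, ?_⟩
    have h2 : tau e = 2 := by
      unfold tau
      rw [hp.divisors, card_pair hp.ne_one.symm]
    have := tau_mul_le d e
    rw [h2, ← he] at this
    omega
  obtain ⟨f, hf⟩ := Nat.minFac_dvd e
  have hp1 : 2 ≤ e.minFac := (Nat.minFac_prime h1).two_le
  have hle : e.minFac ≤ f := by
    have := Nat.minFac_le_div (Nat.pos_of_ne_zero he0) hp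
    rwa [Nat.div_eq_of_eq_mul_right (by omega) hf] at this
  generalize e.minFac = p at *
  have hbig : m < (d * p) * (d * p) := by
    by_contra h
    have := hmax (d * p) (mem_filter.mpr ⟨Nat.mem_divisors.mpr ⟨⟨f, by rw [he, hf]; ring⟩, hm⟩,
      by omega⟩)
    simp only [id] at this
    nlinarith [Nat.pos_of_ne_zero hd0]
  have hm' : m = (d * p) * f := by rw [he, hf]; ring
  have hf1 : f < d * p := by
    rw [hm'] at hbig
    exact lt_of_mul_lt_mul_left hbig (Nat.zero_le _)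
  have hf2 : f * f ≤ m := by rw [hm']; exact Nat.mul_le_mul_right _ hf1.le
  have hp2 : p * p ≤ m := (Nat.mul_le_mul hle hle).trans hf2
  have ht : tau m ≤ tau d * tau p * tau f := by
    rw [hm']
    exact (tau_mul_le _ _).trans (Nat.mul_le_mul_right _ (tau_mul_le _ _))
  have fin : ∀ t : ℕ, tau d ≤ t → tau p ≤ t → tau f ≤ t → tau m ≤ 2 * t ^ 3 := by
    intro t a b c
    have := Nat.mul_le_mul (Nat.mul_le_mul a b) c
    have e : t * t * t = t ^ 3 := by ring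
    omega
  rcases le_total (tau d) (tau p) with a | a <;> rcases le_total (tau p) (tau f) with b | b <;>
    rcases le_total (tau d) (tau f) with c | c
  all_goals first
    | exact ⟨f, ⟨d * p, by rw [hm']; ring⟩, hf2, fin _ (by omega) (by omega) le_rfl⟩
    | exact ⟨p, ⟨d * f, by rw [hm']; ring⟩, hp2, fin _ (by omega) le_rfl (by omega)⟩
    | exact ⟨d, ⟨e, he⟩, hd2, fin _ le_rfl (by omega) (by omega)⟩

lemma root_unique (d x0 x y : ℤ) (hd : d ≠ 0) (h0 : d ∣ x0 ^ 2 + 1) (hx : d ∣ x ^ 2 + 1)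
    (hy : d ∣ y ^ 2 + 1) (hg : Int.gcd (x - x0) d = Int.gcd (y - x0) d) : d ∣ x - y := by
  obtain ⟨e, he⟩ : ∃ e : ℤ, e = Int.gcd (x - x0) d := ⟨_, rfl⟩
  have he0 : e ≠ 0 := by
    rw [he]; exact_mod_cast (Int.gcd_pos_of_ne_zero_right _ hd).ne'
  obtain ⟨f, hf⟩ : e ∣ d := he ▸ Int.gcd_dvd_right _ _
  have key : ∀ z : ℤ, d ∣ z ^ 2 + 1 → e = Int.gcd (z - x0) d → e ∣ z - x0 ∧ f ∣ z + x0 := by
    intro z hz hz'
    have h1 : e ∣ z - x0 := hz' ▸ Int.gcd_dvd_left _ _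
    refine ⟨h1, ?_⟩
    obtain ⟨u, hu⟩ := h1
    have hb := Int.gcd_eq_gcd_ab (z - x0) d
    rw [← hz'] at hb
    have hcop : IsCoprime f u := by
      refine ⟨Int.gcdB (z - x0) d, Int.gcdA (z - x0) d, ?_⟩
      apply mul_left_cancel₀ he0
      linear_combination -hb - Int.gcdA (z - x0) d * hu - Int.gcdB (z - x0) d * hf
    have h2 : e * f ∣ e * (u * (z + x0)) := by
      rw [← hf]
      have : e * (u * (z + x0)) = (z ^ 2 + 1) - (x0 ^ 2 + 1) := by
        linear_combination (-(z + x0)) * hu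
      rw [this]
      exact dvd_sub hz h0
    exact hcop.dvd_of_dvd_mul_left ((mul_dvd_mul_iff_left he0).mp h2)
  obtain ⟨a1, a2⟩ := key x hx he
  obtain ⟨b1, b2⟩ := key y hy (by rw [he, hg])
  have hcop : IsCoprime e f := by
    rw [Int.isCoprime_iff_gcd_eq_one]
    obtain ⟨h, hh⟩ : ∃ h : ℤ, h = Int.gcd e f := ⟨_, rfl⟩
    have h1 : h ∣ e := hh ▸ Int.gcd_dvd_left _ _
    have h2 : h ∣ f := hh ▸ Int.gcd_dvd_right _ _
    have h3 : h * h ∣ x0 ^ 2 + 1 := (mul_dvd_mul h1 h2).trans (hf ▸ h0)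
    have h4 : h ∣ 2 * x0 := by
      have := dvd_sub (h2.trans a2) (h1.trans a1)
      rwa [show x + x0 - (x - x0) = 2 * x0 by ring] at this
    have h5 : h ∣ 2 := by
      have := dvd_sub (Dvd.dvd.mul_left ((dvd_mul_right h h).trans h3) 2) (Dvd.dvd.mul_right h4 x0)
      rwa [show 2 * (x0 ^ 2 + 1) - 2 * x0 * x0 = 2 by ring] at this
    have h6 : 0 < h := by rw [hh]; exact_mod_cast Int.gcd_pos_of_ne_zero_left _ he0
    have h7 := Int.le_of_dvd (by norm_num) h5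
    have h8 : h ≠ 2 := by
      rintro rfl
      obtain ⟨k, hk⟩ := h3
      rcases Int.even_or_odd' x0 with ⟨t, rfl | rfl⟩
      · have : 4 * (k - t ^ 2) = 1 := by linear_combination -hk
        omega
      · have : 4 * (k - t ^ 2 - t) = 2 := by linear_combination -hk
        omega
    have : h = 1 := by omega
    exact_mod_cast hh.symm.trans this
  rw [hf]
  refine hcop.mul_dvd ?_ ?_
  · have := dvd_sub a1 b1
    rwa [show x - x0 - (y - x0) = x - y by ring] at this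
  · have := dvd_sub a2 b2
    rwa [show x + x0 - (y + x0) = x - y by ring] at this

lemma count_roots (d N : ℕ) (hd : d ≠ 0) :
    ((Icc 1 N).filter (fun n => d ∣ n ^ 2 + 1)).card ≤ tau d * (N / d + 1) := by
  rcases ((Icc 1 N).filter (fun n => d ∣ n ^ 2 + 1)).eq_empty_or_nonempty with h | ⟨x0, h⟩
  · rw [h]; simp
  have h0 : (d : ℤ) ∣ (x0 : ℤ) ^ 2 + 1 := by exact_mod_cast (mem_filter.mp h).2
  have : tau d * (N / d + 1) = (d.divisors ×ˢ range (N / d + 1)).card := by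
    rw [card_product, card_range]; rfl
  rw [this]
  refine card_le_card_of_injOn (fun n => (Int.gcd ((n : ℤ) - x0) d, n / d)) ?_ ?_
  · intro n hn
    have hn' := mem_Icc.mp (mem_filter.mp (mem_coe.mp hn)).1
    refine mem_coe.mpr (mem_product.mpr ⟨Nat.mem_divisors.mpr ⟨?_, hd⟩, mem_range.mpr ?_⟩)
    · exact_mod_cast Int.gcd_dvd_right ((n : ℤ) - x0) d
    · exact Nat.lt_succ_of_le (Nat.div_le_div_right hn'.2)
  · intro x hx y hy hxy
    obtain ⟨e1, e2⟩ := Prod.mk.inj hxy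
    have hx' : (d : ℤ) ∣ (x : ℤ) ^ 2 + 1 := by exact_mod_cast (mem_filter.mp (mem_coe.mp hx)).2
    have hy' : (d : ℤ) ∣ (y : ℤ) ^ 2 + 1 := by exact_mod_cast (mem_filter.mp (mem_coe.mp hy)).2
    have := root_unique d x0 x y (by exact_mod_cast hd) h0 hx' hy' e1
    have e3 : y % d = x % d := (Nat.modEq_iff_dvd.mpr this)
    rw [← Nat.div_add_mod x d, ← Nat.div_add_mod y d, e2, e3]

lemma tau_pow_sum (N k : ℕ) :
    ∑ d ∈ Icc 1 N, (tau d : ℝ) ^ k / d ≤ (∑ d ∈ Icc 1 N, (1 : ℝ) / d) ^ (2 ^ k) := by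
  induction k with
  | zero => simp
  | succ k ih =>
    have h0 : 0 ≤ ∑ d ∈ Icc 1 N, (tau d : ℝ) ^ k / d := sum_nonneg fun _ _ => by positivity
    rw [pow_succ 2 k, pow_mul]
    refine le_trans ?_ (pow_le_pow_left₀ h0 ih 2)
    rw [pow_two, sum_mul_sum, ← sum_product']
    refine le_trans ?_ (sum_le_sum_of_subset_of_nonneg
      (filter_subset (fun x : ℕ × ℕ => x.1 * x.2 ∈ Icc 1 N) _) fun _ _ _ => by positivity)
    rw [← sum_fiberwise_eq_sum_filter]
    refine sum_le_sum fun d hd => ?_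
    have hd' := mem_Icc.mp hd
    have e : (tau d : ℝ) ^ (k + 1) / d = ∑ x ∈ d.divisorsAntidiagonal, (tau d : ℝ) ^ k / d := by
      rw [Nat.sum_divisorsAntidiagonal (fun _ _ => (tau d : ℝ) ^ k / d), sum_const, nsmul_eq_mul]
      unfold tau
      ring
    rw [e]
    refine le_trans (sum_le_sum fun x hx => ?_) (sum_le_sum_of_subset_of_nonneg
      (s := d.divisorsAntidiagonal) ?_ fun _ _ _ => by positivity)
    · have h1 := (Nat.mem_divisorsAntidiagonal.mp hx).1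
      rw [← h1, div_mul_div_comm, ← mul_pow, Nat.cast_mul]
      gcongr
      exact_mod_cast tau_mul_le _ _
    · intro x hx
      have h1 := (Nat.mem_divisorsAntidiagonal.mp hx).1
      have a1 : x.1 ≠ 0 := by intro h; rw [h] at h1; omega
      have a2 : x.2 ≠ 0 := by intro h; rw [h] at h1; omega
      refine mem_filter.mpr ⟨mem_product.mpr ⟨mem_Icc.mpr ⟨by omega, ?_⟩,
        mem_Icc.mpr ⟨by omega, ?_⟩⟩, h1⟩
      · nlinarith [Nat.pos_of_ne_zero a2]
      · nlinarith [Nat.pos_of_ne_zero a1]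

lemma harmonic_le (N : ℕ) : ∑ d ∈ Icc 1 N, (1 : ℝ) / d ≤ 1 + Real.log N := by
  have := harmonic_le_one_add_log N
  rw [harmonic_eq_sum_Icc] at this
  push_cast at this
  simpa using this

theorem second_moment (N : ℕ) :
    ∑ n ∈ Icc 1 N, (tau (n ^ 2 + 1) : ℝ) ^ 2 ≤ 8 * N * (1 + Real.log N) ^ 128 := by
  have h1 : ∀ n ∈ Icc 1 N, (tau (n ^ 2 + 1) : ℝ) ^ 2 ≤
      ∑ d ∈ Icc 1 N, if d ∣ n ^ 2 + 1 then 4 * (tau d : ℝ) ^ 6 else 0 := by
    intro n hn
    have hn' := mem_Icc.mp hn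
    obtain ⟨d, a1, a2, a3⟩ := exists_small_divisor (n ^ 2 + 1) (by omega)
    have hd : d ∈ Icc 1 N := by
      refine mem_Icc.mpr ⟨Nat.pos_of_dvd_of_pos a1 (by omega), ?_⟩
      by_contra h
      nlinarith
    refine le_trans ?_ (single_le_sum (f := fun d => if d ∣ n ^ 2 + 1 then 4 * (tau d : ℝ) ^ 6 else 0)
      (fun _ _ => by split_ifs <;> positivity) hd)
    rw [if_pos a1]
    have : (tau (n ^ 2 + 1) : ℝ) ≤ 2 * (tau d : ℝ) ^ 3 := by exact_mod_cast a3
    calc _ ≤ (2 * (tau d : ℝ) ^ 3) ^ 2 := by gcongr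
      _ = _ := by ring
  refine (sum_le_sum h1).trans ?_
  rw [sum_comm]
  have h2 : ∀ d ∈ Icc 1 N, (∑ n ∈ Icc 1 N, if d ∣ n ^ 2 + 1 then 4 * (tau d : ℝ) ^ 6 else 0) ≤
      8 * N * ((tau d : ℝ) ^ 7 / d) := by
    intro d hd
    have hd' := mem_Icc.mp hd
    have hd0 : (0 : ℝ) < d := by exact_mod_cast hd'.1
    have hdN : (d : ℝ) ≤ N := by exact_mod_cast hd'.2
    rw [← sum_filter, sum_const, nsmul_eq_mul]
    have a1 : (((Icc 1 N).filter (fun n => d ∣ n ^ 2 + 1)).card : ℝ) ≤ tau d * ((N / d : ℕ) + 1) := by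
      exact_mod_cast count_roots d N (by omega)
    have a2 : ((N / d : ℕ) : ℝ) ≤ N / d := Nat.cast_div_le
    have a3 : (1 : ℝ) ≤ N / d := by rw [le_div_iff₀ hd0]; linarith
    calc _ ≤ (tau d * (N / d + N / d)) * (4 * (tau d : ℝ) ^ 6) := by
          gcongr
          exact a1.trans (by gcongr)
      _ = _ := by ring
  refine (sum_le_sum h2).trans ?_
  rw [← mul_sum]
  refine mul_le_mul_of_nonneg_left ((tau_pow_sum N 7).trans ?_) (by positivity)
  exact pow_le_pow_left₀ (sum_nonneg fun _ _ => by positivity) (harmonic_le N) _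

end Pool.Agent.Lib.MP_de94cf_nt
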