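import Mathlib

set_option autoImplicit false

open ArithmeticFunction

namespace Pool.Agent.Lib.MP_de94cf_nt

/-- Liouville function of the norm -/
def gg (z : GaussianInt) : ℤ := liouville z.norm.natAbs

lemma liouville_sq {n : ℕ} (h : n ≠ 0) : liouville n * liouville n = 1 := by
  rw [liouville_apply h, ← mul_pow]; simp

lemma gg_mul (z w : GaussianInt) : gg (z * w) = gg z * gg w := by
  unfold gg
  rw [Zsqrtd.norm_mul, Int.natAbs_mul, liouville_apply_mul]

lemma gg_zero : gg 0 = 0 := by simp [gg]

lemma gg_one : gg 1 = 1 := by simp [gg, liouville_apply_one]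

lemma gg_sq {z : GaussianInt} (h : z ≠ 0) : gg z * gg z = 1 := by
  apply liouville_sq
  rw [Int.natAbs_ne_zero, ne_eq, GaussianInt.norm_eq_zero]
  exact h

lemma gg_cases {z : GaussianInt} (h : z ≠ 0) : gg z = 1 ∨ gg z = -1 :=
  Int.eq_one_or_neg_one_of_mul_eq_one (gg_sq h)

lemma gg_intCast {k : ℤ} (h : k ≠ 0) : gg (k : GaussianInt) = 1 := by
  unfold gg
  rw [Zsqrtd.norm_intCast, Int.natAbs_mul, liouville_apply_mul]
  exact liouville_sq (Int.natAbs_ne_zero.mpr h)

lemma gg_star (z : GaussianInt) : gg (star z) = gg z := by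
  unfold gg
  rw [Zsqrtd.norm_conj]

lemma gg_one_add_i : gg ⟨1, 1⟩ = -1 := by
  have : (⟨1, 1⟩ : GaussianInt).norm.natAbs = 2 := by simp [Zsqrtd.norm]
  unfold gg
  rw [this, liouville_apply (by norm_num), cardFactors_apply_prime Nat.prime_two]
  norm_num

lemma gg_of_parallel {α β : GaussianInt} {a b : ℤ} (ha : a ≠ 0) (hb : b ≠ 0)
    (h : (a : GaussianInt) * α = b * β) : gg α = gg β := by
  have := congrArg gg h
  rwa [gg_mul, gg_mul, gg_intCast ha, gg_intCast hb, one_mul, one_mul] at this

def det (α β : GaussianInt) : ℤ := α.re * β.im - α.im * β.re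

def inn (α β : GaussianInt) : ℤ := α.re * β.re + α.im * β.im

lemma gg_edge {α β : GaussianInt} (h : det α β = 1) :
    gg α * gg β = liouville ((inn α β).natAbs ^ 2 + 1) := by
  rw [← gg_mul]
  unfold gg
  congr 1
  have : (α * β).norm = inn α β ^ 2 + 1 := by
    unfold det at h
    unfold inn
    rw [Zsqrtd.norm_mul]
    simp only [Zsqrtd.norm]
    linear_combination (α.re * β.im - α.im * β.re + 1) * h
  rw [this]
  zify
  rw [sq_abs, abs_of_nonneg (by positivity)]

lemma exists_inner_point (α β : GaussianInt) (hD : 2 ≤ det α β) :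
    ∃ (γ : GaussianInt) (p q : ℤ), 0 ≤ p ∧ 0 ≤ q ∧ p < det α β ∧ q < det α β ∧ p + q ≤ det α β ∧
      0 < p + q ∧ (det α β : GaussianInt) * γ = p * α + q * β := by
  have step : ∀ (γ : GaussianInt) (p q : ℤ), 0 ≤ p → 0 ≤ q → p < det α β → q < det α β →
      0 < p + q → (det α β : GaussianInt) * γ = p * α + q * β →
      ∃ (γ : GaussianInt) (p q : ℤ), 0 ≤ p ∧ 0 ≤ q ∧ p < det α β ∧ q < det α β ∧ p + q ≤ det α β ∧
      0 < p + q ∧ (det α β : GaussianInt) * γ = p * α + q * β := by
    intro γ p q h1 h2 h3 h4 h5 h6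
    by_cases h : p + q ≤ det α β
    · exact ⟨γ, p, q, h1, h2, h3, h4, h, h5, h6⟩
    · refine ⟨α + β - γ, det α β - p, det α β - q, by omega, by omega, by omega, by omega,
        by omega, by omega, ?_⟩
      push_cast
      linear_combination -h6
  have red : ∀ (e : GaussianInt) (s t : ℤ), (det α β : GaussianInt) * e = s * α + t * β →
      0 < s % det α β + t % det α β →
      ∃ (γ : GaussianInt) (p q : ℤ), 0 ≤ p ∧ 0 ≤ q ∧ p < det α β ∧ q < det α β ∧ p + q ≤ det α β ∧
      0 < p + q ∧ (det α β : GaussianInt) * γ = p * α + q * β := by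
    intro e s t h1 h2
    refine step (e - ((s / det α β : ℤ) : GaussianInt) * α - ((t / det α β : ℤ) : GaussianInt) * β)
      (s % det α β) (t % det α β) (Int.emod_nonneg _ (by omega)) (Int.emod_nonneg _ (by omega))
      (Int.emod_lt_of_pos _ (by omega)) (Int.emod_lt_of_pos _ (by omega)) h2 ?_
    have a1 := congrArg (Int.cast : ℤ → GaussianInt) (Int.emod_add_mul_ediv s (det α β))
    have a2 := congrArg (Int.cast : ℤ → GaussianInt) (Int.emod_add_mul_ediv t (det α β))
    simp only [Int.cast_add, Int.cast_mul] at a1 a2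
    linear_combination h1 - α * a1 - β * a2
  by_cases c1 : 0 < β.im % det α β + (-α.im) % det α β
  · refine red 1 β.im (-α.im) ?_ c1
    ext <;> simp [det] <;> ring
  by_cases c2 : 0 < (-β.re) % det α β + α.re % det α β
  · refine red ⟨0, 1⟩ (-β.re) α.re ?_ c2
    ext <;> simp [det] <;> ring
  exfalso
  have n1 := Int.emod_nonneg β.im (show det α β ≠ 0 by omega)
  have n2 := Int.emod_nonneg (-α.im) (show det α β ≠ 0 by omega)
  have n3 := Int.emod_nonneg (-β.re) (show det α β ≠ 0 by omega)
  have n4 := Int.emod_nonneg α.re (show det α β ≠ 0 by omega)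
  obtain ⟨a, ha⟩ := Int.dvd_of_emod_eq_zero (show β.im % det α β = 0 by omega)
  obtain ⟨b, hb⟩ := Int.dvd_of_emod_eq_zero (show (-α.im) % det α β = 0 by omega)
  obtain ⟨c, hc⟩ := Int.dvd_of_emod_eq_zero (show (-β.re) % det α β = 0 by omega)
  obtain ⟨d, hd⟩ := Int.dvd_of_emod_eq_zero (show α.re % det α β = 0 by omega)
  have e : det α β * (det α β * (d * a - b * c) - 1) = 0 := by
    have : det α β = α.re * β.im - α.im * β.re := rfl
    linear_combination -this - β.im * hd - det α β * d * ha + (-α.im) * hc + det α β * c * hb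
  have e' : det α β * (d * a - b * c) = 1 := by
    have := (mul_eq_zero.mp e).resolve_left (by omega)
    linarith
  have := Int.eq_one_of_mul_eq_one_right (by omega) e'
  omega

/-- closure under rational convex combinations with the origin -/
def StarConvex (P : GaussianInt → Prop) : Prop :=
  ∀ (α β γ : GaussianInt) (D p q : ℤ), P α → P β → 0 < D → 0 ≤ p → 0 ≤ q → p + q ≤ D →
    (D : GaussianInt) * γ = p * α + q * β → P γ

lemma descent (P : GaussianInt → Prop) (hP : StarConvex P) (n : ℕ) :
    ∀ α β : GaussianInt, det α β = n → 0 < n → P α → P β → gg α ≠ gg β →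
      ∃ α' β' : GaussianInt, det α' β' = 1 ∧ P α' ∧ P β' ∧ gg α' ≠ gg β' := by
  induction n using Nat.strong_induction_on with
  | _ n ih =>
    intro α β hd hn hα hβ hg
    by_cases h1 : n = 1
    · exact ⟨α, β, by rw [hd, h1]; rfl, hα, hβ, hg⟩
    obtain ⟨γ, p, q, p0, q0, p1, q1, pq, pq0, e⟩ := exists_inner_point α β (by omega)
    have hγ : P γ := hP α β γ _ p q hα hβ (by omega) p0 q0 pq e
    have er := congrArg Zsqrtd.re e
    have ei := congrArg Zsqrtd.im e
    simp at er ei
    have hD : det α β ≠ 0 := by omega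
    have d1 : det α γ = q := by
      apply mul_left_cancel₀ hD
      unfold det at *
      linear_combination α.re * ei - α.im * er
    have d2 : det γ β = p := by
      apply mul_left_cancel₀ hD
      unfold det at *
      linear_combination β.im * er - β.re * ei
    by_cases hc : gg γ = gg α
    · have hp : 0 < p := by
        rcases p0.lt_or_eq with h | h
        · exact h
        · exfalso
          apply hg
          rw [← hc]
          refine gg_of_parallel hD (show q ≠ 0 by omega) ?_
          rw [e, ← h]; simp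
      exact ih p.toNat (by omega) γ β (by omega) (by omega) hγ hβ (by rw [hc]; exact hg)
    · have hq : 0 < q := by
        rcases q0.lt_or_eq with h | h
        · exact h
        · exfalso
          apply hc
          refine gg_of_parallel hD (show p ≠ 0 by omega) ?_
          rw [e, ← h]; simp
      exact ih q.toNat (by omega) α γ (by omega) (by omega) hα hγ (fun h => hc h.symm)

lemma exists_edge (P : GaussianInt → Prop) (hP : StarConvex P) (α β : GaussianInt) (hα0 : α ≠ 0)
    (hβ0 : β ≠ 0) (hα : P α) (hβ : P β) (hg : gg α ≠ gg β) :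
    ∃ α' β' : GaussianInt, det α' β' = 1 ∧ P α' ∧ P β' ∧ gg α' * gg β' = -1 := by
  have main : ∃ α' β' : GaussianInt, det α' β' = 1 ∧ P α' ∧ P β' ∧ gg α' ≠ gg β' := by
    rcases lt_trichotomy (det α β) 0 with h | h | h
    · have : det β α = -det α β := by unfold det; ring
      exact descent P hP (det β α).toNat β α (by omega) (by omega) hβ hα (fun h => hg h.symm)
    · exfalso
      apply hg
      have e : star α * β = (inn α β : GaussianInt) := by
        unfold det at h
        ext <;> simp [inn]
        linarith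
      have hne : inn α β ≠ 0 := by
        intro h0
        rw [h0] at e
        rcases mul_eq_zero.mp e with h1 | h1
        · exact hα0 (star_eq_zero.mp h1)
        · exact hβ0 h1
      have e2 := congrArg gg e
      rw [gg_mul, gg_star, gg_intCast hne] at e2
      linear_combination gg β * e2 - gg α * gg_sq hβ0
    · exact descent P hP (det α β).toNat α β (by omega) (by omega) hα hβ hg
  obtain ⟨α', β', h1, h2, h3, h4⟩ := main
  refine ⟨α', β', h1, h2, h3, ?_⟩
  have a0 : α' ≠ 0 := by rintro rfl; simp [det] at h1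
  have b0 : β' ≠ 0 := by rintro rfl; simp [det] at h1
  rcases gg_cases a0 with a | a <;> rcases gg_cases b0 with b | b <;> simp_all

end Pool.Agent.Lib.MP_de94cf_nt
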