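import Mathlib
import Pool.Agent.Lib.MP_de94cf_nt.Farey

set_option autoImplicit false

open Finset MeasureTheory ComplexConjugate

namespace Pool.Agent.Lib.MP_de94cf_nt

def Close (η : ℝ) (z u : ℂ) : Prop := |(z * conj u).im| ≤ η * (z * conj u).re

def Box (R : ℤ) (z : GaussianInt) : Prop := |z.re| ≤ R ∧ |z.im| ≤ R

lemma close_iff (η : ℝ) (z u : ℂ) :
    Close η z u ↔ |z.im * u.re - z.re * u.im| ≤ η * (z.re * u.re + z.im * u.im) := by
  unfold Close
  simp only [Complex.mul_im, Complex.mul_re, Complex.conj_re, Complex.conj_im]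
  constructor <;> intro h <;> convert h using 2 <;> ring

lemma Close.re_nonneg {η : ℝ} {z u : ℂ} (hη : 0 < η) (h : Close η z u) : 0 ≤ (z * conj u).re :=
  (mul_nonneg_iff_of_pos_left hη).mp ((abs_nonneg _).trans h)

lemma Close.mono {η η' : ℝ} {z u : ℂ} (hη : 0 < η) (h' : η ≤ η') (h : Close η z u) :
    Close η' z u :=
  le_trans h (mul_le_mul_of_nonneg_right h' (h.re_nonneg hη))

lemma Close.mul {η : ℝ} {z u : ℂ} (c : ℂ) (h : Close η z u) : Close η (c * z) (u * c) := by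
  unfold Close at *
  have e : c * z * conj (u * c) = (Complex.normSq c : ℝ) * (z * conj u) := by
    rw [map_mul, ← Complex.mul_conj]; ring
  rw [e, Complex.re_ofReal_mul, Complex.im_ofReal_mul, abs_mul, abs_of_nonneg (Complex.normSq_nonneg c),
    mul_left_comm]
  exact mul_le_mul_of_nonneg_left h (Complex.normSq_nonneg c)

lemma Close.comp {η : ℝ} {z u y : ℂ} (hη : 0 < η) (hη' : η ≤ 1 / 2) (hy : y ≠ 0)
    (h : Close η z (u * y)) (h1 : Close η y 1) : Close (3 * η) z u := by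
  have r1 := h.re_nonneg hη
  have r2 := h1.re_nonneg hη
  unfold Close at *
  have e : (Complex.normSq y : ℝ) * (z * conj u) = (z * conj (u * y)) * y := by
    rw [map_mul, ← Complex.mul_conj]; ring
  have hn : 0 < Complex.normSq y := Complex.normSq_pos.mpr hy
  rw [map_one, mul_one] at h1 r2
  have e1 := congrArg Complex.re e
  have e2 := congrArg Complex.im e
  rw [Complex.re_ofReal_mul, Complex.mul_re (z * conj (u * y))] at e1
  rw [Complex.im_ofReal_mul, Complex.mul_im (z * conj (u * y))] at e2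
  generalize (z * conj (u * y)) = a at *
  generalize (z * conj u) = b at *
  apply le_of_mul_le_mul_left _ hn
  rw [← abs_of_pos hn, ← abs_mul, abs_of_pos hn, mul_left_comm, e1, e2]
  have b1 : |a.re * y.im + a.im * y.re| ≤ 2 * η * (a.re * y.re) := by
    refine (abs_add_le _ _).trans ?_
    rw [abs_mul, abs_mul, abs_of_nonneg r1, abs_of_nonneg r2]
    nlinarith [mul_le_mul_of_nonneg_left h1 r1, mul_le_mul_of_nonneg_right h r2]
  have b2 : a.im * y.im ≤ η * η * (a.re * y.re) := by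
    refine (le_abs_self _).trans ?_
    rw [abs_mul]
    calc |a.im| * |y.im| ≤ (η * a.re) * (η * y.re) :=
          mul_le_mul h h1 (abs_nonneg _) (mul_nonneg hη.le r1)
      _ = _ := by ring
  have b3 : 0 ≤ a.re * y.re := mul_nonneg r1 r2
  have b4 : η * η ≤ 1 / 4 := by nlinarith
  have b5 : η * η * (a.re * y.re) ≤ 1 / 4 * (a.re * y.re) := mul_le_mul_of_nonneg_right b4 b3
  nlinarith

lemma Close.re_pos {η : ℝ} {z u : ℂ} (hη : 0 < η) (hz : z ≠ 0) (hu : u ≠ 0) (h : Close η z u) :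
    0 < (z * conj u).re := by
  rcases (h.re_nonneg hη).lt_or_eq with h1 | h1
  · exact h1
  · exfalso
    unfold Close at h
    rw [← h1, mul_zero, abs_nonpos_iff] at h
    have : z * conj u = 0 := Complex.ext h1.symm h
    rcases mul_eq_zero.mp this with h2 | h2
    · exact hz h2
    · exact hu ((map_eq_zero _).mp h2)

lemma inn_pos {η : ℝ} {α β : GaussianInt} {u : ℂ} (hη : 0 < η) (hη' : η < 1) (hα : α ≠ 0)
    (hβ : β ≠ 0) (hu : u ≠ 0) (h1 : Close η α u) (h2 : Close η β u) : 0 < inn α β := by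
  have r1 := h1.re_pos hη (by simpa using hα) hu
  have r2 := h2.re_pos hη (by simpa using hβ) hu
  have hn : 0 < Complex.normSq u := Complex.normSq_pos.mpr hu
  have e : Complex.normSq u * (inn α β : ℝ) =
      ((α : ℂ) * conj u).re * ((β : ℂ) * conj u).re + ((α : ℂ) * conj u).im * ((β : ℂ) * conj u).im := by
    simp only [inn, Complex.mul_im, Complex.mul_re, Complex.conj_re, Complex.conj_im,
      Complex.normSq_apply, Int.cast_add, Int.cast_mul, GaussianInt.intCast_re,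
      GaussianInt.intCast_im]
    ring
  unfold Close at *
  generalize ((α : ℂ) * conj u) = a at *
  generalize ((β : ℂ) * conj u) = b at *
  have b2 : -(a.im * b.im) ≤ η * η * (a.re * b.re) := by
    refine (neg_le_abs _).trans ?_
    rw [abs_mul]
    calc |a.im| * |b.im| ≤ (η * a.re) * (η * b.re) :=
          mul_le_mul h1 h2 (abs_nonneg _) (mul_nonneg hη.le r1.le)
      _ = _ := by ring
  have b3 : 0 < a.re * b.re := mul_pos r1 r2
  have b4 : η * η < 1 := by nlinarith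
  have b5 : η * η * (a.re * b.re) < 1 * (a.re * b.re) := mul_lt_mul_of_pos_right b4 b3
  have : 0 < Complex.normSq u * (inn α β : ℝ) := by rw [e]; linarith
  have := (mul_pos_iff_of_pos_left hn).mp this
  exact_mod_cast this

lemma abs_comb_le {D p q a b c : ℝ} {s t : ℝ} (hD : 0 < D) (hp : 0 ≤ p) (hq : 0 ≤ q)
    (e : D * c = p * a + q * b) (ha : |a| ≤ s) (hb : |b| ≤ t) : D * |c| ≤ p * s + q * t := by
  rw [← abs_of_pos hD, ← abs_mul, e]
  refine (abs_add_le _ _).trans ?_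
  rw [abs_mul, abs_mul, abs_of_nonneg hp, abs_of_nonneg hq]
  exact add_le_add (mul_le_mul_of_nonneg_left ha hp) (mul_le_mul_of_nonneg_left hb hq)

lemma starConvex_cone (η : ℝ) (u : ℂ) (R : ℤ) :
    StarConvex (fun z => Close η z u ∧ Box R z) := by
  intro α β γ D p q ⟨a1, a2, a3⟩ ⟨b1, b2, b3⟩ hD hp hq hpq e
  have er := congrArg Zsqrtd.re e
  have ei := congrArg Zsqrtd.im e
  simp at er ei
  have hD' : (0 : ℝ) < D := by exact_mod_cast hD
  have hp' : (0 : ℝ) ≤ p := by exact_mod_cast hp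
  have hq' : (0 : ℝ) ≤ q := by exact_mod_cast hq
  have hpq' : (p : ℝ) + q ≤ D := by exact_mod_cast hpq
  have er' : (D : ℝ) * γ.re = p * α.re + q * β.re := by exact_mod_cast er
  have ei' : (D : ℝ) * γ.im = p * α.im + q * β.im := by exact_mod_cast ei
  have hR : (0 : ℝ) ≤ R := by exact_mod_cast (abs_nonneg _).trans a2
  refine ⟨?_, ?_, ?_⟩
  · rw [close_iff] at *
    simp only [← GaussianInt.intCast_re, ← GaussianInt.intCast_im] at *
    apply le_of_mul_le_mul_left _ hD'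
    refine (abs_comb_le hD' hp' hq' ?_ a1 b1).trans (le_of_eq ?_)
    · linear_combination u.re * ei' - u.im * er'
    · linear_combination -η * u.re * er' - η * u.im * ei'
  · have : |(γ.re : ℝ)| ≤ R := by
      apply le_of_mul_le_mul_left _ hD'
      refine (abs_comb_le hD' hp' hq' er' (s := R) (t := R) (by exact_mod_cast a2)
        (by exact_mod_cast b2)).trans ?_
      nlinarith
    exact_mod_cast this
  · have : |(γ.im : ℝ)| ≤ R := by
      apply le_of_mul_le_mul_left _ hD'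
      refine (abs_comb_le hD' hp' hq' ei' (s := R) (t := R) (by exact_mod_cast a3)
        (by exact_mod_cast b3)).trans ?_
      nlinarith
    exact_mod_cast this

noncomputable def boxF (R : ℤ) : Finset GaussianInt :=
  ((Icc (-R) R) ×ˢ (Icc (-R) R)).image (fun p => ⟨p.1, p.2⟩)

lemma mem_boxF {R : ℤ} {z : GaussianInt} : z ∈ boxF R ↔ Box R z := by
  unfold boxF Box
  simp only [mem_image, mem_product, mem_Icc, abs_le]
  constructor
  · rintro ⟨p, h, rfl⟩; exact h
  · intro h; exact ⟨(z.re, z.im), h, rfl⟩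

noncomputable def Edges (σ R : ℤ) : Finset (GaussianInt × GaussianInt) :=
  (boxF R ×ˢ boxF R).filter
    (fun e => det e.1 e.2 = 1 ∧ 0 < inn e.1 e.2 ∧ gg e.1 * gg e.2 = σ)

lemma mem_Edges {σ R : ℤ} {e : GaussianInt × GaussianInt} :
    e ∈ Edges σ R ↔ Box R e.1 ∧ Box R e.2 ∧ det e.1 e.2 = 1 ∧ 0 < inn e.1 e.2 ∧
      gg e.1 * gg e.2 = σ := by
  unfold Edges
  simp only [mem_filter, mem_product, mem_boxF, and_assoc]

lemma ne_zero_of_det {α β : GaussianInt} (h : det α β = 1) : α ≠ 0 ∧ β ≠ 0 := by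
  constructor <;> rintro rfl <;> simp [det] at h

lemma same_sign {η : ℝ} {u : ℂ} {R : ℤ} (hη : 0 < η) (hη' : η < 1) (hu : u ≠ 0)
    (hE : ∀ e ∈ Edges (-1) R, ¬ Close η e.1 u) {α β : GaussianInt} (hα : α ≠ 0) (hβ : β ≠ 0)
    (a1 : Close η α u) (a2 : Box R α) (b1 : Close η β u) (b2 : Box R β) : gg α = gg β := by
  by_contra hg
  obtain ⟨α', β', h1, ⟨h2, h3⟩, ⟨h4, h5⟩, h6⟩ :=
    exists_edge _ (starConvex_cone η u R) α β hα hβ ⟨a1, a2⟩ ⟨b1, b2⟩ hg
  obtain ⟨n1, n2⟩ := ne_zero_of_det h1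
  exact hE (α', β') (mem_Edges.mpr ⟨h3, h5, h1, inn_pos hη hη' n1 n2 hu h2 h4, h6⟩) h2

def Cone (η : ℝ) (z w : ℂ) : Set ℝ := {t | t ∈ Set.Icc (0 : ℝ) 1 ∧ Close η z ((1 + t * Complex.I) * w)}

lemma cone_diam {η : ℝ} {z w : ℂ} (hη : 0 < η) (hη' : η ≤ 1 / 4) (hz : z ≠ 0) (hw : w ≠ 0)
    {t t' : ℝ} (ht : t ∈ Cone η z w) (ht' : t' ∈ Cone η z w) : t - t' ≤ 6 * η := by
  obtain ⟨⟨t0, t1⟩, h⟩ := ht
  obtain ⟨⟨t0', t1'⟩, h'⟩ := ht'
  unfold Close at h h'
  have e : ∀ s : ℝ, z * conj ((1 + s * Complex.I) * w) = (z * conj w) * (1 - s * Complex.I) := by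
    intro s
    simp only [map_mul, map_add, map_one, Complex.conj_ofReal, Complex.conj_I]
    ring
  rw [e] at h h'
  have hne : z * conj w ≠ 0 := mul_ne_zero hz ((map_ne_zero _).mpr hw)
  generalize z * conj w = a at *
  simp only [Complex.mul_im, Complex.mul_re, Complex.sub_re, Complex.sub_im, Complex.one_re,
    Complex.one_im, Complex.ofReal_re, Complex.ofReal_im, Complex.I_re, Complex.I_im] at h h'
  have hq : ∀ s : ℝ, 0 ≤ s → s ≤ 1 → a.re + a.im * s ≤ |a.re| + |a.im| := by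
    intro s s0 s1
    have := le_abs_self a.re
    have h2 : a.im * s ≤ |a.im| * s := mul_le_mul_of_nonneg_right (le_abs_self _) s0
    have h3 : |a.im| * s ≤ |a.im| * 1 := mul_le_mul_of_nonneg_left s1 (abs_nonneg _)
    linarith
  have k1 : |a.im - a.re * t| ≤ η * (|a.re| + |a.im|) := by
    refine le_trans (le_of_eq ?_) (h.trans (mul_le_mul_of_nonneg_left ?_ hη.le))
    · congr 1; ring
    · refine le_trans (le_of_eq ?_) (hq t t0 t1); ring
  have k2 : |a.im - a.re * t'| ≤ η * (|a.re| + |a.im|) := by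
    refine le_trans (le_of_eq ?_) (h'.trans (mul_le_mul_of_nonneg_left ?_ hη.le))
    · congr 1; ring
    · refine le_trans (le_of_eq ?_) (hq t' t0' t1'); ring
  have k3 : |a.im| ≤ |a.im - a.re * t| + |a.re| := by
    calc |a.im| = |(a.im - a.re * t) + a.re * t| := by congr 1; ring
      _ ≤ |a.im - a.re * t| + |a.re * t| := abs_add_le _ _
      _ ≤ _ := by
        rw [abs_mul, abs_of_nonneg t0]
        nlinarith [abs_nonneg a.re]
  have k4 : 3 * |a.im| ≤ 5 * |a.re| := by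
    nlinarith [abs_nonneg a.re, abs_nonneg a.im]
  have k5 : 0 < |a.re| := by
    rw [abs_pos]
    intro h0
    apply hne
    rw [h0, abs_zero] at k4
    have : |a.im| = 0 := le_antisymm (by linarith) (abs_nonneg _)
    exact Complex.ext h0 (abs_eq_zero.mp this)
  have k6 : |a.re| * |t - t'| ≤ 2 * (η * (|a.re| + |a.im|)) := by
    rw [← abs_mul]
    calc |a.re * (t - t')| = |(a.im - a.re * t') - (a.im - a.re * t)| := by congr 1; ring
      _ ≤ |a.im - a.re * t'| + |a.im - a.re * t| := abs_sub _ _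
      _ ≤ _ := by linarith
  have k7 : |t - t'| ≤ 6 * η := by
    apply le_of_mul_le_mul_left _ k5
    nlinarith
  exact (le_abs_self _).trans k7

lemma cone_volume {η : ℝ} {z w : ℂ} (hη : 0 < η) (hη' : η ≤ 1 / 4) (hz : z ≠ 0) (hw : w ≠ 0) :
    volume.real (Cone η z w) ≤ 6 * η := by
  have h1 : volume (Cone η z w) ≤ ENNReal.ofReal (6 * η) := by
    refine (Real.volume_le_diam _).trans ?_
    refine Metric.ediam_le fun x hx y hy => ?_
    rw [edist_dist, Real.dist_eq]
    apply ENNReal.ofReal_le_ofReal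
    rw [abs_le]
    have := cone_diam hη hη' hz hw hx hy
    have := cone_diam hη hη' hz hw hy hx
    constructor <;> linarith
  exact ENNReal.toReal_le_of_le_ofReal (by positivity) h1

/-- the lattice point `i^e (k + j i)` -/
def pt (k j : ℤ) (e : ℕ) : GaussianInt := (⟨0, 1⟩ : GaussianInt) ^ e * ⟨k, j⟩

lemma pt_ne_zero {k j : ℤ} (hk : k ≠ 0) (e : ℕ) : pt k j e ≠ 0 := by
  unfold pt
  refine mul_ne_zero (pow_ne_zero _ ?_) ?_
  · intro h; simpa using congrArg Zsqrtd.im h
  · intro h; exact hk (by simpa using congrArg Zsqrtd.re h)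

lemma pt_box {k j R : ℤ} (hk : |k| ≤ R) (hj : |j| ≤ R) (e : ℕ) : Box R (pt k j e) := by
  induction e with
  | zero => simpa [pt, Box] using ⟨hk, hj⟩
  | succ e ih =>
    have : pt k j (e + 1) = ⟨0, 1⟩ * pt k j e := by unfold pt; ring
    rw [this]
    obtain ⟨h1, h2⟩ := ih
    constructor <;> simp [h1, h2]

lemma dirichlet_aux (u : ℂ) (hu : 0 < u.re) (hu' : |u.im| ≤ u.re) (Q : ℕ) (hQ : 1 ≤ Q) :
    ∃ k j : ℤ, 1 ≤ k ∧ k ≤ Q ∧ |j| ≤ k ∧
      Close (2 / (k * Q)) ((⟨k, j⟩ : GaussianInt) : ℂ) u := by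
  obtain ⟨j, k, hk0, hk1, h⟩ := Real.exists_int_int_abs_mul_sub_le (u.im / u.re) (n := Q) hQ
  have hQ' : (1 : ℝ) ≤ Q := by exact_mod_cast hQ
  have hk' : (1 : ℝ) ≤ k := by exact_mod_cast hk0
  obtain ⟨ξ, hξ⟩ : ∃ ξ, ξ = u.im / u.re := ⟨_, rfl⟩
  rw [← hξ] at h
  have e : u.im = ξ * u.re := by rw [hξ]; field_simp
  have hξ1 : |ξ| ≤ 1 := by
    rw [hξ, abs_div, abs_of_pos hu, div_le_one hu]; exact hu'
  have h2 : 1 / ((Q : ℝ) + 1) ≤ 1 / 2 := by
    apply one_div_le_one_div_of_le <;> linarith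
  have h3 : 1 / ((Q : ℝ) + 1) ≤ 1 / Q := by
    apply one_div_le_one_div_of_le <;> linarith
  refine ⟨k, j, hk0, hk1, ?_, ?_⟩
  · have : |(j : ℝ)| < k + 1 := by
      calc |(j : ℝ)| = |k * ξ - (k * ξ - j)| := by congr 1; ring
        _ ≤ |k * ξ| + |k * ξ - j| := abs_sub _ _
        _ < _ := by
          rw [abs_mul, abs_of_pos (by linarith : (0 : ℝ) < k)]
          nlinarith
    have : |j| < k + 1 := by exact_mod_cast this
    omega
  · rw [close_iff, GaussianInt.re_toComplex, GaussianInt.im_toComplex, e]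
    have a1 : |j * u.re - k * (ξ * u.re)| = |k * ξ - j| * u.re := by
      rw [← abs_of_pos hu, ← abs_mul, abs_of_pos hu, ← abs_neg]; congr 1; ring
    have a2 : -(1 / 2 : ℝ) ≤ j * ξ := by
      have b1 : |(k * ξ - j) * ξ| ≤ 1 / 2 := by
        rw [abs_mul]
        nlinarith [abs_nonneg (k * ξ - j), abs_nonneg ξ]
      have b2 := le_abs_self ((k * ξ - j) * ξ)
      nlinarith [sq_nonneg ξ]
    have a3 : (k : ℝ) / 2 * u.re ≤ k * u.re + j * (ξ * u.re) := by nlinarith
    rw [a1]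
    calc |k * ξ - j| * u.re ≤ 1 / Q * u.re := mul_le_mul_of_nonneg_right (h.trans h3) hu.le
      _ = 2 / (k * Q) * (k / 2 * u.re) := by field_simp
      _ ≤ _ := mul_le_mul_of_nonneg_left a3 (by positivity)

lemma dirichlet (u : ℂ) (hu : u ≠ 0) (Q : ℕ) (hQ : 1 ≤ Q) :
    ∃ (k j : ℤ) (e : ℕ), 1 ≤ k ∧ k ≤ Q ∧ |j| ≤ k ∧ e < 4 ∧ Close (2 / (k * Q)) (pt k j e) u := by
  have key : ∀ e : ℕ, e < 4 → ∀ v : ℂ, u = v * Complex.I ^ e → 0 < v.re → |v.im| ≤ v.re →
      ∃ (k j : ℤ) (e : ℕ), 1 ≤ k ∧ k ≤ Q ∧ |j| ≤ k ∧ e < 4 ∧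
        Close (2 / (k * Q)) (pt k j e) u := by
    intro e he v hv h1 h2
    obtain ⟨k, j, a1, a2, a3, a4⟩ := dirichlet_aux v h1 h2 Q hQ
    refine ⟨k, j, e, a1, a2, a3, he, ?_⟩
    have := a4.mul (Complex.I ^ e)
    rw [← hv] at this
    convert this using 1
    simp [pt, GaussianInt.toComplex_def']
  have hne : u.re ≠ 0 ∨ u.im ≠ 0 := by
    by_contra h
    push Not at h
    exact hu (Complex.ext h.1 h.2)
  rcases le_total |u.im| |u.re| with h | h
  · have h0 : u.re ≠ 0 := by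
      rcases hne with h1 | h1
      · exact h1
      · exact abs_pos.mp ((abs_pos.mpr h1).trans_le h)
    rcases h0.lt_or_gt with h1 | h1
    · refine key 2 (by norm_num) (-u) (by simp) (by simpa using h1) ?_
      rw [abs_of_neg h1] at h
      simpa using h
    · refine key 0 (by norm_num) u (by simp) h1 ?_
      rwa [abs_of_pos h1] at h
  · have h0 : u.im ≠ 0 := by
      rcases hne with h1 | h1
      · exact abs_pos.mp ((abs_pos.mpr h1).trans_le h)
      · exact h1
    rcases h0.lt_or_gt with h1 | h1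
    · refine key 3 (by norm_num) (u * Complex.I) ?_ (by simpa using h1) ?_
      · rw [mul_assoc, ← pow_succ', Complex.I_pow_four, mul_one]
      · rw [abs_of_neg h1] at h
        simpa using h
    · refine key 1 (by norm_num) (-(u * Complex.I)) ?_ (by simpa using h1) ?_
      · rw [pow_one, neg_mul, mul_assoc, Complex.I_mul_I]; ring
      · rw [abs_of_pos h1] at h
        simpa using h

noncomputable def Bad (Q K : ℕ) (R : ℤ) (w : ℂ) : Set ℝ :=
  (⋃ k ∈ Icc (1 : ℤ) K, ⋃ j ∈ Icc (-k) k, ⋃ e ∈ range 4, Cone (2 / (k * Q)) (pt k j e) w) ∪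
    ⋃ e ∈ Edges (-1) R, Cone (3 * (2 / (K * Q))) e.1 w

lemma bad_volume (Q K : ℕ) (R : ℤ) (hQ : 24 ≤ Q) (hK : 1 ≤ K) (w : ℂ) (hw : w ≠ 0) :
    volume.real (Bad Q K R w) ≤ 144 * K / Q + 36 / (K * Q) * (Edges (-1) R).card := by
  have hQ' : (24 : ℝ) ≤ Q := by exact_mod_cast hQ
  have hK' : (1 : ℝ) ≤ K := by exact_mod_cast hK
  refine (measureReal_union_le _ _).trans (add_le_add ?_ ?_)
  · refine (measureReal_biUnion_finset_le _ _).trans ?_
    have : ∀ k ∈ Icc (1 : ℤ) K, volume.real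
        (⋃ j ∈ Icc (-k) k, ⋃ e ∈ range 4, Cone (2 / (k * Q)) (pt k j e) w) ≤ 144 / Q := by
      intro k hk
      have hk1 := (mem_Icc.mp hk).1
      have hk' : (1 : ℝ) ≤ k := by exact_mod_cast hk1
      refine (measureReal_biUnion_finset_le _ _).trans ?_
      have : ∀ j ∈ Icc (-k) k, volume.real
          (⋃ e ∈ range 4, Cone (2 / (k * Q)) (pt k j e) w) ≤ 48 / (k * Q) := by
        intro j _
        refine (measureReal_biUnion_finset_le _ _).trans ?_
        have : ∀ e ∈ range 4, volume.real (Cone (2 / (k * Q)) (pt k j e) w) ≤ 6 * (2 / (k * Q)) := by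
          intro e _
          refine cone_volume (by positivity) ?_ (by simpa using pt_ne_zero (by omega) e) hw
          rw [div_le_div_iff₀ (by positivity) (by norm_num)]
          nlinarith
        refine (sum_le_card_nsmul _ _ _ this).trans (le_of_eq ?_)
        simp only [card_range, nsmul_eq_mul]
        push_cast; ring
      refine (sum_le_card_nsmul _ _ _ this).trans ?_
      simp only [Int.card_Icc, nsmul_eq_mul]
      have e : (((k + 1 - -k).toNat : ℕ) : ℝ) = 2 * k + 1 := by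
        have : (((k + 1 - -k).toNat : ℕ) : ℤ) = 2 * k + 1 := by omega
        exact_mod_cast this
      rw [e, ← mul_div_assoc, div_le_div_iff₀ (by positivity) (by positivity)]
      nlinarith
    refine (sum_le_card_nsmul _ _ _ this).trans (le_of_eq ?_)
    simp only [Int.card_Icc, nsmul_eq_mul]
    have e : ((((K : ℤ) + 1 - 1).toNat : ℕ) : ℝ) = K := by simp
    rw [e]; ring
  · refine (measureReal_biUnion_finset_le _ _).trans ?_
    have : ∀ e ∈ Edges (-1) R, volume.real (Cone (3 * (2 / (K * Q))) e.1 w) ≤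
        6 * (3 * (2 / (K * Q))) := by
      intro e he
      refine cone_volume (by positivity) ?_
        (by simpa using (ne_zero_of_det (mem_Edges.mp he).2.2.1).1) hw
      rw [← mul_div_assoc, div_le_div_iff₀ (by positivity) (by norm_num)]
      nlinarith
    refine (sum_le_card_nsmul _ _ _ this).trans (le_of_eq ?_)
    simp only [nsmul_eq_mul]
    ring

lemma one_add_ne_zero (t : ℝ) : (1 + t * Complex.I : ℂ) ≠ 0 := by
  intro h; simpa using congrArg Complex.re h

lemma good_point (Q K : ℕ) (R : ℤ) (hQ : 24 ≤ Q) (hK : 1 ≤ K) (w : ℂ) (hw : w ≠ 0) (t : ℝ)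
    (ht : t ∈ Set.Icc (0 : ℝ) 1) (hb : t ∉ Bad Q K R w) :
    (∃ z : GaussianInt, z ≠ 0 ∧ Box Q z ∧ Close (2 / (K * Q)) z ((1 + t * Complex.I) * w)) ∧
      ∀ e ∈ Edges (-1) R, ¬ Close (3 * (2 / (K * Q))) e.1 ((1 + t * Complex.I) * w) := by
  have hQ' : (24 : ℝ) ≤ Q := by exact_mod_cast hQ
  have hK' : (1 : ℝ) ≤ K := by exact_mod_cast hK
  unfold Bad at hb
  simp only [Set.mem_union, Set.mem_iUnion, not_or, not_exists] at hb
  refine ⟨?_, fun e he h => hb.2 e he ⟨ht, h⟩⟩
  obtain ⟨k, j, e, a1, a2, a3, a4, a5⟩ :=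
    dirichlet _ (mul_ne_zero (one_add_ne_zero t) hw) Q (by omega)
  have hk' : (1 : ℝ) ≤ k := by exact_mod_cast a1
  have hkK : (K : ℤ) ≤ k := by
    by_contra h
    exact hb.1 k (mem_Icc.mpr ⟨a1, by omega⟩) j (mem_Icc.mpr (abs_le.mp a3)) e (mem_range.mpr a4)
      ⟨ht, a5⟩
  have hkK' : (K : ℝ) ≤ k := by exact_mod_cast hkK
  refine ⟨pt k j e, pt_ne_zero (by omega) e,
    pt_box (by rw [abs_of_pos (by omega)]; exact a2) (a3.trans a2) e, a5.mono (by positivity) ?_⟩
  apply div_le_div_of_nonneg_left (by norm_num) (by positivity)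
  nlinarith

lemma Box.mul {X Q : ℤ} {c z : GaussianInt} (hc : Box X c) (hz : Box Q z) :
    Box (2 * X * Q) (c * z) := by
  obtain ⟨a1, a2⟩ := hc
  obtain ⟨b1, b2⟩ := hz
  have hX : 0 ≤ X := (abs_nonneg _).trans a1
  have m : ∀ {a b : ℤ}, |a| ≤ X → |b| ≤ Q → |a * b| ≤ X * Q := fun ha hb => by
    rw [abs_mul]; exact mul_le_mul ha hb (abs_nonneg _) hX
  constructor
  · have : (c * z).re = c.re * z.re - c.im * z.im := by simp; ring
    rw [this]
    refine (abs_sub _ _).trans ?_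
    linarith [m a1 b1, m a2 b2]
  · have : (c * z).im = c.re * z.im + c.im * z.re := by simp
    rw [this]
    refine (abs_add_le _ _).trans ?_
    linarith [m a1 b2, m a2 b1]

lemma Box.mono {R R' : ℤ} {z : GaussianInt} (h : Box R z) (h' : R ≤ R') : Box R' z :=
  ⟨h.1.trans h', h.2.trans h'⟩

lemma transport (Q K X : ℕ) (hQ : 24 ≤ Q) (hK : 1 ≤ K) (hX : 1 ≤ X) (L : List GaussianInt) :
    (∀ c ∈ L, c ≠ 0 ∧ Box X c) → ∀ w : ℂ, w ≠ 0 → ∃ T : Set ℝ,
      volume.real T ≤ L.length * (144 * K / Q + 36 / (K * Q) * (Edges (-1) (2 * X * Q)).card) ∧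
      T ⊆ Set.Icc 0 1 ∧
      ∀ t ∈ Set.Icc (0 : ℝ) 1, t ∉ T → ∀ z : GaussianInt, z ≠ 0 → Box Q z →
        Close (2 / (K * Q)) z ((1 + t * Complex.I) * w) →
        ∃ z' : GaussianInt, z' ≠ 0 ∧ Box Q z' ∧
          Close (2 / (K * Q)) z' ((1 + t * Complex.I) * (w * (L.prod : GaussianInt))) ∧
          gg z' = gg L.prod * gg z := by
  have hQ' : (24 : ℝ) ≤ Q := by exact_mod_cast hQ
  have hK' : (1 : ℝ) ≤ K := by exact_mod_cast hK
  induction L with
  | nil =>
    intro _ w _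
    refine ⟨∅, by simp, by simp, fun t _ _ z h1 h2 h3 => ⟨z, h1, h2, by simpa using h3, ?_⟩⟩
    simp [gg_one]
  | cons c L ih =>
    intro hL w hw
    obtain ⟨hc0, hc⟩ := hL c (by simp)
    have hwc : w * (c : ℂ) ≠ 0 := mul_ne_zero hw (by simpa using hc0)
    obtain ⟨T, hT, hT', hT''⟩ := ih (fun d hd => hL d (by simp [hd])) (w * c) hwc
    refine ⟨(Bad Q K (2 * X * Q) (w * c) ∩ Set.Icc 0 1) ∪ T, ?_,
      Set.union_subset Set.inter_subset_right hT', ?_⟩
    · refine (measureReal_union_le _ _).trans ?_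
      have h1 : volume.real (Bad Q K (2 * X * Q) (w * c) ∩ Set.Icc 0 1) ≤
          volume.real (Bad Q K (2 * X * Q) (w * c)) := by
        refine measureReal_mono Set.inter_subset_left ?_
        refine ne_top_of_le_ne_top (b := volume (Set.Icc (0 : ℝ) 1)) (by simp) (measure_mono ?_)
        intro t ht
        unfold Bad at ht
        simp only [Set.mem_union, Set.mem_iUnion] at ht
        rcases ht with ⟨_, _, _, _, _, _, h⟩ | ⟨_, _, h⟩ <;> exact h.1
      have h2 := bad_volume Q K (2 * X * Q) hQ hK _ hwc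
      simp only [List.length_cons]
      push_cast
      linarith
    · intro t ht hb z z0 z1 z2
      simp only [Set.mem_union, Set.mem_inter_iff, not_or, not_and] at hb
      obtain ⟨⟨z', y0, y1, y2⟩, hE⟩ :=
        good_point Q K (2 * X * Q) hQ hK _ hwc t ht (fun h => hb.1 h ht)
      have hη : (0 : ℝ) < 2 / (K * Q) := by positivity
      have hη1 : 3 * (2 / ((K : ℝ) * Q)) < 1 := by
        rw [← mul_div_assoc, div_lt_one (by positivity)]; nlinarith
      have hcz : Close (2 / (K * Q)) ((c * z : GaussianInt) : ℂ) ((1 + t * Complex.I) * (w * c)) := by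
        have := z2.mul (c : ℂ)
        rwa [mul_assoc, ← GaussianInt.toComplex_mul] at this
      have hs : gg z' = gg (c * z) := by
        refine same_sign (by positivity) hη1 (mul_ne_zero (one_add_ne_zero t) hwc) hE y0
          (mul_ne_zero hc0 z0) (y2.mono hη (by linarith)) (y1.mono ?_) (hcz.mono hη (by linarith))
          (hc.mul z1)
        have : (1 : ℤ) ≤ X := by exact_mod_cast hX
        nlinarith [Int.natCast_nonneg Q]
      obtain ⟨z'', x0, x1, x2, x3⟩ := hT'' t ht hb.2 z' y0 y1 y2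
      refine ⟨z'', x0, x1, ?_, ?_⟩
      · rw [List.prod_cons, GaussianInt.toComplex_mul, ← mul_assoc w]; exact x2
      · rw [x3, hs, List.prod_cons, gg_mul, gg_mul]; ring

theorem cover (Q K X : ℕ) (hQ : 24 ≤ Q) (hK : 1 ≤ K) (hX : 1 ≤ X) (L : List GaussianInt)
    (hL : ∀ c ∈ L, c ≠ 0 ∧ Box X c) (hg : gg L.prod = -1)
    (hc : Close (2 / (K * Q)) (L.prod : GaussianInt) 1) :
    (1 : ℝ) ≤ (L.length + 1) *
      (144 * K / Q + 36 / (K * Q) * (Edges (-1) (2 * X * Q)).card) := by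
  have hQ' : (24 : ℝ) ≤ Q := by exact_mod_cast hQ
  have hK' : (1 : ℝ) ≤ K := by exact_mod_cast hK
  obtain ⟨T, hT, hT', hT''⟩ := transport Q K X hQ hK hX L hL 1 one_ne_zero
  have hη : (0 : ℝ) < 2 / (K * Q) := by positivity
  have hη1 : 3 * (2 / ((K : ℝ) * Q)) < 1 := by
    rw [← mul_div_assoc, div_lt_one (by positivity)]; nlinarith
  have hy : L.prod ≠ 0 := by
    intro h; rw [h, gg_zero] at hg; omega
  have hsub : Set.Icc (0 : ℝ) 1 ⊆ (Bad Q K (2 * X * Q) 1 ∩ Set.Icc 0 1) ∪ T := by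
    intro t ht
    by_contra hb
    simp only [Set.mem_union, Set.mem_inter_iff, not_or, not_and] at hb
    obtain ⟨⟨z, y0, y1, y2⟩, hE⟩ :=
      good_point Q K (2 * X * Q) hQ hK _ one_ne_zero t ht (fun h => hb.1 h ht)
    obtain ⟨z', x0, x1, x2, x3⟩ := hT'' t ht hb.2 z y0 y1 y2
    rw [← mul_assoc] at x2
    have x4 := x2.comp hη (by linarith) (by simpa using hy) hc
    have hle : (Q : ℤ) ≤ 2 * X * Q := by
      have : (1 : ℤ) ≤ X := by exact_mod_cast hX
      nlinarith [Int.natCast_nonneg Q]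
    have hs := same_sign (by positivity) hη1 (mul_ne_zero (one_add_ne_zero t) one_ne_zero) hE x0 y0
      x4 (x1.mono hle) (y2.mono hη (by linarith)) (y1.mono hle)
    rw [hg, hs] at x3
    rcases gg_cases y0 with h | h <;> omega
  have h0 : volume.real (Set.Icc (0 : ℝ) 1) = 1 := by simp
  have h1 : volume.real (Set.Icc (0 : ℝ) 1) ≤
      volume.real ((Bad Q K (2 * X * Q) 1 ∩ Set.Icc 0 1) ∪ T) := by
    refine measureReal_mono hsub ?_
    refine ne_top_of_le_ne_top (b := volume (Set.Icc (0 : ℝ) 1)) (by simp) (measure_mono ?_)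
    exact Set.union_subset Set.inter_subset_right hT'
  have h2 : volume.real (Bad Q K (2 * X * Q) 1 ∩ Set.Icc 0 1) ≤
      volume.real (Bad Q K (2 * X * Q) 1) := by
    refine measureReal_mono Set.inter_subset_left ?_
    refine ne_top_of_le_ne_top (b := volume (Set.Icc (0 : ℝ) 1)) (by simp) (measure_mono ?_)
    intro t ht
    unfold Bad at ht
    simp only [Set.mem_union, Set.mem_iUnion] at ht
    rcases ht with ⟨_, _, _, _, _, _, h⟩ | ⟨_, _, h⟩ <;> exact h.1
  have h3 := bad_volume Q K (2 * X * Q) hQ hK _ one_ne_zero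
  have h4 := measureReal_union_le (μ := volume) (Bad Q K (2 * X * Q) 1 ∩ Set.Icc 0 1) T
  linarith

end Pool.Agent.Lib.MP_de94cf_nt
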