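import Mathlib
import Pool.Agent.Lib.MP_de94cf_nt.Cover

set_option autoImplicit false

open Finset Polynomial ComplexConjugate

namespace Pool.Agent.Lib.MP_de94cf_nt

def Cheap (X : ℤ) (M : ℕ) (y : GaussianInt) : Prop :=
  ∃ L : List GaussianInt, L.length ≤ M ∧ (∀ c ∈ L, c ≠ 0 ∧ Box X c) ∧ L.prod = y

lemma Cheap.mul {X : ℤ} {M M' : ℕ} {y y' : GaussianInt} (h : Cheap X M y) (h' : Cheap X M' y') :
    Cheap X (M + M') (y * y') := by
  obtain ⟨L, a1, a2, rfl⟩ := h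
  obtain ⟨L', b1, b2, rfl⟩ := h'
  refine ⟨L ++ L', by simp; omega, fun c hc => ?_, by simp⟩
  rcases List.mem_append.mp hc with h | h
  · exact a2 c h
  · exact b2 c h

lemma Cheap.mono {X : ℤ} {M M' : ℕ} {y : GaussianInt} (h : Cheap X M y) (h' : M ≤ M') :
    Cheap X M' y := by
  obtain ⟨L, a1, a2, a3⟩ := h
  exact ⟨L, a1.trans h', a2, a3⟩

lemma Cheap.single {X : ℤ} {c : GaussianInt} (h0 : c ≠ 0) (h : Box X c) : Cheap X 1 c :=
  ⟨[c], by simp, by simpa using ⟨h0, h⟩, by simp⟩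

lemma Cheap.star {X : ℤ} {M : ℕ} {y : GaussianInt} (h : Cheap X M y) : Cheap X M (star y) := by
  obtain ⟨L, a1, a2, rfl⟩ := h
  refine ⟨L.map (starRingEnd GaussianInt), by simpa using a1, fun c hc => ?_, ?_⟩
  · obtain ⟨d, hd, rfl⟩ := List.mem_map.mp hc
    obtain ⟨h1, h2, h3⟩ := a2 d hd
    exact ⟨by rw [starRingEnd_apply]; simpa using h1, by rw [starRingEnd_apply]; simpa using h2, by
      rw [starRingEnd_apply, Zsqrtd.im_star, abs_neg]; exact h3⟩
  · rw [← map_list_prod]; rfl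

lemma Cheap.prod {X : ℤ} {ι : Type} (s : Finset ι) (c : ι → GaussianInt)
    (h : ∀ i ∈ s, c i ≠ 0 ∧ Box X (c i)) : Cheap X s.card (∏ i ∈ s, c i) := by
  classical
  induction s using Finset.induction_on with
  | empty => exact ⟨[], by simp, by simp, by simp⟩
  | insert i s hi ih =>
    rw [prod_insert hi, card_insert_of_notMem hi, add_comm]
    obtain ⟨h0, h1⟩ := h i (mem_insert_self _ _)
    exact (Cheap.single h0 h1).mul (ih fun j hj => h j (mem_insert_of_mem hj))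

lemma Cheap.ne_zero {X : ℤ} {M : ℕ} {y : GaussianInt} (h : Cheap X M y) : y ≠ 0 := by
  obtain ⟨L, _, a2, rfl⟩ := h
  exact List.prod_ne_zero fun h0 => (a2 0 h0).1 rfl

/-- `z` has argument `α` -/
def Rep (z : ℂ) (α : ℝ) : Prop := z = (‖z‖ : ℝ) * Complex.exp (α * Complex.I)

lemma Rep.mul {z w : ℂ} {α β : ℝ} (h : Rep z α) (h' : Rep w β) : Rep (z * w) (α + β) := by
  unfold Rep at *
  rw [norm_mul]
  push_cast
  rw [add_mul, Complex.exp_add]
  linear_combination (w : ℂ) * h + (‖z‖ : ℝ) * Complex.exp (α * Complex.I) * h'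

lemma Rep.conj {z : ℂ} {α : ℝ} (h : Rep z α) : Rep (conj z) (-α) := by
  unfold Rep at *
  rw [Complex.norm_conj]
  conv_lhs => rw [h]
  rw [map_mul, Complex.conj_ofReal, ← Complex.exp_conj, map_mul, Complex.conj_ofReal, Complex.conj_I]
  push_cast
  ring_nf

lemma rep_arg (z : ℂ) : Rep z z.arg := (Complex.norm_mul_exp_arg_mul_I z).symm

noncomputable def sg (z : ℂ) : ℝ := |z.im| / ‖z‖

lemma rep_sq (y : ℂ) : ∃ ψ : ℝ, Rep (y * y) ψ ∧ 2 * sg y ≤ |ψ| ∧ |ψ| ≤ 4 * sg y := by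
  have key : ∀ z : ℂ, 0 ≤ z.re → ∃ ψ : ℝ, Rep (z * z) ψ ∧ 2 * sg z ≤ |ψ| ∧ |ψ| ≤ 4 * sg z := by
    intro z hz
    have h1 := Complex.abs_arg_le_pi_div_two_iff.mpr hz
    have h2 : sg z = |Real.sin z.arg| := by
      rw [Complex.sin_arg, sg, abs_div, abs_norm]
    have h3 := Real.mul_abs_le_abs_sin h1
    have h4 := Real.abs_sin_le_abs (x := z.arg)
    refine ⟨z.arg + z.arg, (rep_arg z).mul (rep_arg z), ?_, ?_⟩
    · rw [h2, ← two_mul, abs_mul, abs_two]; linarith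
    · rw [h2, ← two_mul, abs_mul, abs_two]
      have h5 : 1 / 2 ≤ 2 / Real.pi := by
        rw [div_le_div_iff₀ (by norm_num) Real.pi_pos]; linarith [Real.pi_le_four]
      nlinarith [abs_nonneg z.arg]
  rcases le_total 0 y.re with h | h
  · exact key y h
  · have := key (-y) (by simpa using h)
    simpa [sg] using this

def Odd' (X : ℤ) (M : ℕ) (α : ℝ) : Prop :=
  ∃ z : GaussianInt, Cheap X M z ∧ gg z = -1 ∧ Rep z α

lemma reduce_aux {X : ℤ} {l : ℕ} {q : GaussianInt} {ψ : ℝ} (hq : Cheap X l q) (hg : gg q = 1)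
    (hr : Rep q ψ) (hψ : 0 ≤ ψ) (k : ℕ) : ∀ (M : ℕ) (α : ℝ), Odd' X M α → |α| ≤ k * ψ →
      ∃ α' : ℝ, Odd' X (M + k * l) α' ∧ |α'| ≤ ψ := by
  induction k with
  | zero => intro M α h h'; exact ⟨α, by simpa using h, by simp at h'; simpa [h'] using hψ⟩
  | succ k ih =>
    intro M α ⟨z, h1, h2, h3⟩ h'
    push_cast at h'
    by_cases hc : |α| ≤ ψ
    · exact ⟨α, ⟨z, h1.mono (by omega), h2, h3⟩, hc⟩
    rw [show M + (k + 1) * l = M + l + k * l by ring]
    rcases le_total 0 α with h0 | h0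
    · refine ih (M + l) (α + -ψ) ⟨z * star q, h1.mul hq.star, by rw [gg_mul, gg_star, h2, hg]; rfl,
        ?_⟩ ?_
      · rw [GaussianInt.toComplex_mul, GaussianInt.toComplex_star]
        exact h3.mul hr.conj
      · rw [abs_of_nonneg h0] at h' hc
        rw [abs_of_nonneg (by linarith)]; linarith
    · refine ih (M + l) (α + ψ) ⟨z * q, h1.mul hq, by rw [gg_mul, h2, hg]; rfl, ?_⟩ ?_
      · rw [GaussianInt.toComplex_mul]
        exact h3.mul hr
      · rw [abs_of_nonpos h0] at h' hc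
        rw [abs_of_nonpos (by linarith)]; linarith

lemma reduce {X : ℤ} {l : ℕ} {y : GaussianInt} (hy : Cheap X l y) (k M : ℕ) (α : ℝ)
    (h : Odd' X M α) (h' : |α| ≤ k * (2 * sg y)) :
    ∃ α' : ℝ, Odd' X (M + k * (l + l)) α' ∧ |α'| ≤ 4 * sg y := by
  obtain ⟨ψ, a1, a2, a3⟩ := rep_sq (y : ℂ)
  have hg : gg (y * y) = 1 := by rw [gg_mul, gg_sq hy.ne_zero]
  rw [← GaussianInt.toComplex_mul] at a1
  have hk : |α| ≤ k * |ψ| := h'.trans (mul_le_mul_of_nonneg_left a2 (Nat.cast_nonneg k))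
  rcases le_total 0 ψ with h0 | h0
  · rw [abs_of_nonneg h0] at hk a3
    obtain ⟨α', b1, b2⟩ := reduce_aux (hy.mul hy) hg a1 h0 k M α h hk
    exact ⟨α', b1, b2.trans a3⟩
  · rw [abs_of_nonpos h0] at hk a3
    obtain ⟨α', b1, b2⟩ := reduce_aux (hy.mul hy).star (by rw [gg_star, hg])
      (by rw [GaussianInt.toComplex_star]; exact a1.conj) (by linarith) k M α h hk
    exact ⟨α', b1, b2.trans a3⟩

lemma Rep.close {z : ℂ} {α η : ℝ} (h : Rep z α) (h1 : |α| ≤ 1) (h2 : 2 * |α| ≤ η) :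
    Close η z 1 := by
  unfold Close
  rw [map_one, mul_one, h, Complex.re_ofReal_mul, Complex.im_ofReal_mul,
    Complex.exp_ofReal_mul_I_re, Complex.exp_ofReal_mul_I_im, abs_mul, abs_norm, mul_left_comm]
  refine mul_le_mul_of_nonneg_left ?_ (norm_nonneg _)
  have a1 := Real.abs_sin_le_abs (x := α)
  have a2 := Real.one_sub_sq_div_two_le_cos (x := α)
  have a3 : α ^ 2 ≤ 1 := by rw [← sq_abs]; nlinarith [abs_nonneg α]
  nlinarith [abs_nonneg α]

lemma extrap (P : ℂ[X]) (n : ℕ) (hn : P.natDegree < n) (x : ℂ) :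
    ∃ i : ℕ, 1 ≤ i ∧ i ≤ n ∧ |(P.eval x).im| ≤ 2 * n * |(P.eval (x + (i : ℂ) ^ 2)).im| := by
  have hdeg : (P.comp (C x + (X - C (n : ℂ)) ^ 2)).natDegree < 2 * n := by
    have h1 : (C x + (X - C (n : ℂ)) ^ 2).natDegree ≤ 2 := by compute_degree
    have := natDegree_comp_le (p := P) (q := C x + (X - C (n : ℂ)) ^ 2)
    nlinarith
  have h0 := congrFun (Polynomial.fwdDiff_iter_eq_zero_of_degree_lt hdeg) 0
  rw [fwdDiff_iter_eq_sum_shift] at h0
  simp only [eval_comp, eval_add, eval_C, eval_pow, eval_sub, eval_X, Pi.zero_apply, zero_add,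
    nsmul_eq_mul, mul_one] at h0
  have hmem : n ∈ range (2 * n + 1) := mem_range.mpr (by omega)
  rw [← add_sum_erase _ _ hmem] at h0
  have h1 := congrArg Complex.im h0
  rw [Complex.add_im, Complex.im_sum, Complex.zero_im] at h1
  simp only [zsmul_eq_mul, sub_self, ne_eq, OfNat.ofNat_ne_zero, not_false_eq_true, zero_pow,
    add_zero] at h1
  have him : ∀ (a : ℤ) (z : ℂ), ((a : ℂ) * z).im = a * z.im := fun a z => by simp
  simp only [him] at h1
  have hc : (0 : ℝ) < (2 * n).choose n := by exact_mod_cast Nat.choose_pos (by omega)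
  have habs : ∀ (k : ℕ) (t : ℝ), |((((-1 : ℤ) ^ (2 * n - k) * ((2 * n).choose k) : ℤ)) : ℝ) * t| =
      (2 * n).choose k * |t| := by
    intro k t
    push_cast
    rw [abs_mul, abs_mul, abs_pow, abs_neg, abs_one, one_pow, one_mul, Nat.abs_cast]
  have h2 : ((2 * n).choose n : ℝ) * |(P.eval x).im| ≤
      ∑ k ∈ (range (2 * n + 1)).erase n,
        ((2 * n).choose n : ℝ) * |(P.eval (x + ((k : ℂ) - n) ^ 2)).im| := by
    rw [← habs, eq_neg_of_add_eq_zero_left h1, abs_neg]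
    refine (abs_sum_le_sum_abs _ _).trans (sum_le_sum fun k _ => ?_)
    rw [habs]
    refine mul_le_mul_of_nonneg_right ?_ (abs_nonneg _)
    exact_mod_cast Nat.choose_le_centralBinom k n
  rw [← mul_sum] at h2
  have h3 := le_of_mul_le_mul_left h2 hc
  have hn0 : (0 : ℝ) < n := by exact_mod_cast (by omega : 0 < n)
  have hcard : ((range (2 * n + 1)).erase n).card = 2 * n := by
    rw [card_erase_of_mem hmem, card_range]; rfl
  obtain ⟨k, hk, hk'⟩ := exists_le_of_sum_le (s := (range (2 * n + 1)).erase n)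
    (f := fun _ => |(P.eval x).im| / (2 * n))
    (g := fun k : ℕ => |(P.eval (x + ((k : ℂ) - n) ^ 2)).im|)
    (card_pos.mp (by omega)) (by
      rw [sum_const, hcard, nsmul_eq_mul]
      push_cast
      rw [mul_div_cancel₀ _ (by positivity)]
      exact h3)
  rw [div_le_iff₀ (by positivity), mul_comm] at hk'
  have hk1 := ne_of_mem_erase hk
  have hk2 := mem_range.mp (mem_of_mem_erase hk)
  rcases lt_or_gt_of_ne hk1 with h | h
  · refine ⟨n - k, by omega, by omega, ?_⟩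
    rw [Nat.cast_sub h.le, ← neg_sub, neg_sq]
    exact hk'
  · refine ⟨k - n, by omega, by omega, ?_⟩
    rw [Nat.cast_sub h.le]
    exact hk'

lemma coeff_prod_le {ι : Type} (s : Finset ι) (a : ι → ℕ) (A : ℕ) (h : ∀ i ∈ s, a i ≤ A) (k : ℕ) :
    (∏ i ∈ s, (1 + C (a i) * X : ℕ[X])).coeff k ≤ (s.card * A) ^ k := by
  classical
  induction s using Finset.induction_on generalizing k with
  | empty => rw [prod_empty, coeff_one]; split_ifs with h <;> simp [h]
  | insert i s hi ih =>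
    have ih' := ih fun j hj => h j (mem_insert_of_mem hj)
    have hA := h i (mem_insert_self _ _)
    rw [prod_insert hi, card_insert_of_notMem hi, add_mul, one_mul, mul_assoc, coeff_add,
      coeff_C_mul]
    rcases k with _ | k
    · simpa using ih' 0
    · rw [coeff_X_mul]
      have h1 := ih' (k + 1)
      have h2 := Nat.mul_le_mul hA (ih' k)
      have h3 : (s.card * A) ^ k ≤ ((s.card + 1) * A) ^ k :=
        Nat.pow_le_pow_left (Nat.mul_le_mul_right _ (by omega)) k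
      calc _ ≤ (s.card * A) ^ (k + 1) + A * (s.card * A) ^ k := add_le_add h1 h2
        _ = (s.card * A) ^ k * ((s.card + 1) * A) := by ring
        _ ≤ _ := by rw [pow_succ]; exact Nat.mul_le_mul_right _ h3

lemma pigeon (J s : ℕ) (hJ : 1 ≤ J) (hs : s = 32 * J ^ 3) :
    ∃ a a' : Fin s → ℕ, (∀ i, a i ≤ 2 * s) ∧ (∀ i, a' i ≤ 2 * s) ∧
      (∃ i0, (∀ i, i ≠ i0 → a i ≠ a i0) ∧ ∀ i, a' i ≠ a i0) ∧
      ∀ k < J, (∏ i, (1 + C (a i) * X : ℕ[X])).coeff k = (∏ i, (1 + C (a' i) * X : ℕ[X])).coeff k := by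
  let A : (Fin s → Fin 2) → Fin s → ℕ := fun f i => 2 * i + f i
  have hA : ∀ f i, A f i ≤ 2 * s := fun f i => by
    have := i.2
    have := (f i).2
    simp only [A]; omega
  have hs0 : 1 ≤ s * (2 * s) := by
    have : 1 ≤ s := by rw [hs]; nlinarith [Nat.one_le_pow 3 J hJ]
    nlinarith
  let F : (Fin s → Fin 2) → Fin J → Fin ((s * (2 * s)) ^ J + 1) := fun f k =>
    ⟨(∏ i, (1 + C (A f i) * X : ℕ[X])).coeff k, by
      have := coeff_prod_le univ (A f) (2 * s) (fun i _ => hA f i) k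
      rw [card_univ, Fintype.card_fin] at this
      have h2 : (s * (2 * s)) ^ (k : ℕ) ≤ (s * (2 * s)) ^ J := Nat.pow_le_pow_right hs0 k.2.le
      omega⟩
  have hcard : Fintype.card (Fin J → Fin ((s * (2 * s)) ^ J + 1)) < Fintype.card (Fin s → Fin 2) := by
    simp only [Fintype.card_fun, Fintype.card_fin]
    have h1 : J ≤ 2 ^ J := Nat.lt_two_pow_self.le
    have h2 : s * (2 * s) ≤ 2 ^ (17 * J) := by
      calc s * (2 * s) = 2 ^ 11 * J ^ 6 := by rw [hs]; ring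
        _ ≤ 2 ^ (11 * J) * (2 ^ J) ^ 6 :=
          Nat.mul_le_mul (Nat.pow_le_pow_right (by norm_num) (by omega)) (Nat.pow_le_pow_left h1 6)
        _ = _ := by rw [← pow_mul, ← pow_add]; congr 1; ring
    have h3 : (s * (2 * s)) ^ J + 1 ≤ 2 ^ (17 * J * J + 1) := by
      have := Nat.pow_le_pow_left h2 J
      rw [← pow_mul] at this
      have h4 : 1 ≤ 2 ^ (17 * J * J) := Nat.one_le_two_pow
      rw [pow_succ]; omega
    calc _ ≤ (2 ^ (17 * J * J + 1)) ^ J := Nat.pow_le_pow_left h3 J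
      _ < 2 ^ s := by
        rw [← pow_mul]
        apply Nat.pow_lt_pow_right (by norm_num)
        rw [hs]
        have : J ≤ J ^ 3 := Nat.le_self_pow (by norm_num) J
        nlinarith
  obtain ⟨f, f', hne, hF⟩ := Fintype.exists_ne_map_eq_of_card_lt F hcard
  obtain ⟨i0, hi0⟩ := Function.ne_iff.mp hne
  refine ⟨A f, A f', hA f, hA f', ⟨i0, fun i hi h => ?_, fun i h => ?_⟩, fun k hk => ?_⟩
  · have := (f i).2
    have := (f i0).2
    simp only [A] at h
    exact hi (Fin.ext (by omega))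
  · have := (f' i).2
    have := (f i0).2
    simp only [A] at h
    have e : i = i0 := Fin.ext (by omega)
    subst e
    exact hi0 (Fin.ext (by omega))
  · exact congrArg Fin.val (congrFun hF ⟨k, hk⟩)

lemma im_mul_le (a b : ℂ) : |(a * b).im| ≤ |a.im| * ‖b‖ + ‖a‖ * |b.im| := by
  rw [Complex.mul_im, add_comm]
  refine (abs_add_le _ _).trans ?_
  rw [abs_mul, abs_mul]
  exact add_le_add (mul_le_mul_of_nonneg_left (Complex.abs_re_le_norm b) (abs_nonneg _))
    (mul_le_mul_of_nonneg_right (Complex.abs_re_le_norm a) (abs_nonneg _))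

lemma im_prod_le {ι : Type} (s : Finset ι) (f : ι → ℂ) (ε : ℝ)
    (h : ∀ i ∈ s, |(f i).im| ≤ ε * ‖f i‖) :
    |(∏ i ∈ s, f i).im| ≤ s.card * ε * ‖∏ i ∈ s, f i‖ := by
  classical
  induction s using Finset.induction_on with
  | empty => simp
  | insert i s hi ih =>
    have ih' := ih fun j hj => h j (mem_insert_of_mem hj)
    have h1 := h i (mem_insert_self _ _)
    rw [prod_insert hi, card_insert_of_notMem hi, norm_mul]
    refine (im_mul_le _ _).trans ?_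
    push_cast
    nlinarith [mul_le_mul_of_nonneg_right h1 (norm_nonneg (∏ i ∈ s, f i)),
      mul_le_mul_of_nonneg_left ih' (norm_nonneg (f i))]

lemma norm_prod_le {ι : Type} (s : Finset ι) (f g : ι → ℂ) (ε : ℝ)
    (h : ∀ i ∈ s, ‖g i‖ ≤ (1 + ε) * ‖f i‖) :
    ‖∏ i ∈ s, g i‖ ≤ Real.exp (s.card * ε) * ‖∏ i ∈ s, f i‖ := by
  rw [norm_prod, norm_prod, Real.exp_nat_mul, ← prod_const, ← prod_mul_distrib]
  refine prod_le_prod (fun i _ => norm_nonneg _) fun i hi => (h i hi).trans ?_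
  refine mul_le_mul_of_nonneg_right ?_ (norm_nonneg _)
  linarith [Real.add_one_le_exp ε]

/-- the Gaussian integer attached to a pair of multisets with many equal symmetric functions -/
def YY {s : ℕ} (a a' : Fin s → ℕ) (r v : ℕ) (x : ℤ) : GaussianInt :=
  (∏ i, (⟨x + a i * r, v⟩ : GaussianInt)) * ∏ i, (⟨x + a' i * r, -v⟩ : GaussianInt)

lemma YY_coe {s : ℕ} (a a' : Fin s → ℕ) (r v : ℕ) (x : ℤ) :
    ((YY a a' r v x : GaussianInt) : ℂ) =
      (∏ i, ((x : ℂ) + (a i * r + v * Complex.I))) * ∏ i, ((x : ℂ) + (a' i * r - v * Complex.I)) := by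
  unfold YY
  rw [map_mul, map_prod, map_prod]
  congr 1 <;> refine prod_congr rfl fun i _ => ?_ <;> rw [GaussianInt.toComplex_def'] <;>
    push_cast <;> ring

lemma YY_cheap {s : ℕ} (a a' : Fin s → ℕ) (r v : ℕ) (x X : ℤ) (hv : 0 < v) (hv' : (v : ℤ) ≤ X)
    (ha : ∀ i, |x + a i * r| ≤ X) (ha' : ∀ i, |x + a' i * r| ≤ X) :
    Cheap X (s + s) (YY a a' r v x) := by
  have h1 := Cheap.prod (X := X) univ (fun i => (⟨x + a i * r, v⟩ : GaussianInt)) fun i _ =>
    ⟨fun h => by have := congrArg Zsqrtd.im h; simp at this; omega, ha i, by simpa using hv'⟩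
  have h2 := Cheap.prod (X := X) univ (fun i => (⟨x + a' i * r, -v⟩ : GaussianInt)) fun i _ =>
    ⟨fun h => by have := congrArg Zsqrtd.im h; simp at this; omega, ha' i, by simpa using hv'⟩
  rw [card_univ, Fintype.card_fin] at h1 h2
  exact h1.mul h2

lemma YY_ne_zero {s : ℕ} (a a' : Fin s → ℕ) (r v : ℕ) (x : ℤ) (hv : 0 < v) :
    ((YY a a' r v x : GaussianInt) : ℂ) ≠ 0 := by
  rw [YY_coe]
  refine mul_ne_zero (prod_ne_zero_iff.mpr fun i _ h => ?_) (prod_ne_zero_iff.mpr fun i _ h => ?_) <;>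
    have := congrArg Complex.im h <;> simp at this <;> omega

lemma YY_start {s : ℕ} (a a' : Fin s → ℕ) (r v : ℕ) (hv : 0 < v) (hr : 4 * s * v ≤ r) (i0 : Fin s)
    (h1 : ∀ i, i ≠ i0 → a i ≠ a i0) (h2 : ∀ i, a' i ≠ a i0) :
    1 / 2 ≤ sg (YY a a' r v (-(a i0 * r : ℕ))) := by
  have hs : (1 : ℝ) ≤ s := by
    have := i0.2
    exact_mod_cast (by omega : 1 ≤ s)
  have hv' : (0 : ℝ) < v := by exact_mod_cast hv
  have hr' : 4 * (s : ℝ) * v ≤ r := by exact_mod_cast hr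
  have fac : ∀ (b : ℕ) (w : ℝ), b ≠ a i0 → |w| = v →
      |(((-(a i0 * r : ℕ) : ℤ) : ℂ) + (b * r + w * Complex.I)).im| ≤
        1 / (4 * s) * ‖((-(a i0 * r : ℕ) : ℤ) : ℂ) + (b * r + w * Complex.I)‖ := by
    intro b w hb hw
    have e1 := Complex.abs_re_le_norm (((-(a i0 * r : ℕ) : ℤ) : ℂ) + (b * r + w * Complex.I))
    have e2 : (((-(a i0 * r : ℕ) : ℤ) : ℂ) + (b * r + w * Complex.I)).re = ((b : ℝ) - a i0) * r := by
      simp; ring
    have e3 : (((-(a i0 * r : ℕ) : ℤ) : ℂ) + (b * r + w * Complex.I)).im = w := by simp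
    have e4 : (1 : ℝ) ≤ |(b : ℝ) - a i0| := by
      have : (1 : ℤ) ≤ |(b : ℤ) - a i0| := Int.one_le_abs (by omega)
      exact_mod_cast this
    rw [e2, abs_mul, Nat.abs_cast] at e1
    rw [e3, hw, one_div, inv_mul_eq_div, le_div_iff₀ (by positivity)]
    nlinarith [Nat.cast_nonneg (α := ℝ) r]
  have hY := YY_ne_zero a a' r v (-(a i0 * r : ℕ)) hv
  unfold sg
  rw [le_div_iff₀ (norm_pos_iff.mpr hY)]
  rw [YY_coe, ← mul_prod_erase _ _ (mem_univ i0), mul_assoc]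
  have p1 := im_prod_le (univ.erase i0)
    (fun i => ((-(a i0 * r : ℕ) : ℤ) : ℂ) + (a i * r + v * Complex.I)) (1 / (4 * s))
    fun i hi => by simpa using fac (a i) v (h1 i (ne_of_mem_erase hi)) (by simp)
  have p2 := im_prod_le univ
    (fun i => ((-(a i0 * r : ℕ) : ℤ) : ℂ) + (a' i * r - v * Complex.I)) (1 / (4 * s))
    fun i _ => by simpa [sub_eq_add_neg] using fac (a' i) (-v) (h2 i) (by simp)
  have c1 : ((univ.erase i0).card : ℝ) * (1 / (4 * s)) ≤ 1 / 4 := by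
    have : ((univ.erase i0).card : ℝ) ≤ s := by
      have := card_le_card (erase_subset i0 univ)
      rw [card_univ, Fintype.card_fin] at this
      exact_mod_cast this
    rw [mul_one_div, div_le_div_iff₀ (by positivity) (by norm_num)]; linarith
  have c2 : (((univ : Finset (Fin s)).card : ℕ) : ℝ) * (1 / (4 * s)) = 1 / 4 := by
    rw [card_univ, Fintype.card_fin]; field_simp
  rw [c2] at p2
  generalize (∏ i ∈ univ.erase i0, (((-(a i0 * r : ℕ) : ℤ) : ℂ) + (a i * r + v * Complex.I))) = A at *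
  generalize (∏ i, (((-(a i0 * r : ℕ) : ℤ) : ℂ) + (a' i * r - v * Complex.I))) = B at *
  have e : ((-(a i0 * r : ℕ) : ℤ) : ℂ) + (a i0 * r + v * Complex.I) = (v : ℝ) * Complex.I := by
    push_cast; ring
  have q1 : |(A * B).im| ≤ 1 / 2 * ‖A * B‖ := by
    refine (im_mul_le _ _).trans ?_
    rw [norm_mul]
    have := p1.trans (mul_le_mul_of_nonneg_right c1 (norm_nonneg A))
    nlinarith [mul_le_mul_of_nonneg_right this (norm_nonneg B),
      mul_le_mul_of_nonneg_left p2 (norm_nonneg A)]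
  have q2 : 1 / 2 * ‖A * B‖ ≤ |(A * B).re| := by
    linarith [Complex.norm_le_abs_re_add_abs_im (A * B)]
  rw [e, norm_mul, norm_mul ((v : ℝ) : ℂ) Complex.I, mul_assoc ((v : ℝ) : ℂ), Complex.im_ofReal_mul, Complex.I_mul_im,
    abs_mul, Complex.norm_I, Complex.norm_real, Real.norm_eq_abs]
  nlinarith [abs_nonneg (v : ℝ)]

lemma YY_step {s : ℕ} (a a' : Fin s → ℕ) (r v n : ℕ) (hn : 2 * s < n) (hv : n ^ 3 ≤ v) (x : ℤ) :
    ∃ i : ℕ, 1 ≤ i ∧ i ≤ n ∧ sg (YY a a' r v x) ≤ 6 * n * sg (YY a a' r v (x + i ^ 2)) := by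
  have hn' : (0 : ℝ) < n := by exact_mod_cast (by omega : 0 < n)
  have hv0 : 0 < v := lt_of_lt_of_le (pow_pos (by omega) 3) hv
  have hv' : (n : ℝ) ^ 3 ≤ v := by exact_mod_cast hv
  let P : ℂ[X] := (∏ i, (X + C ((a i : ℂ) * r + v * Complex.I))) *
    ∏ i, (X + C ((a' i : ℂ) * r - v * Complex.I))
  have hP : ∀ y : ℤ, P.eval (y : ℂ) = ((YY a a' r v y : GaussianInt) : ℂ) := by
    intro y
    rw [YY_coe]
    simp only [P, eval_mul, eval_prod, eval_add, eval_X, eval_C]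
  have hdeg : P.natDegree < n := by
    have h1 : ∀ b : Fin s → ℂ, (∏ i, (X + C (b i))).natDegree ≤ s := fun b => by
      refine (natDegree_prod_le _ _).trans ?_
      simp
    have := natDegree_mul_le (p := ∏ i, (X + C ((a i : ℂ) * r + v * Complex.I)))
      (q := ∏ i, (X + C ((a' i : ℂ) * r - v * Complex.I)))
    have := h1 fun i => (a i : ℂ) * r + v * Complex.I
    have := h1 fun i => (a' i : ℂ) * r - v * Complex.I
    simp only [P] at *
    omega
  obtain ⟨i, i1, i2, h⟩ := extrap P n hdeg x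
  refine ⟨i, i1, i2, ?_⟩
  have e : (x : ℂ) + (i : ℂ) ^ 2 = ((x + i ^ 2 : ℤ) : ℂ) := by push_cast; ring
  rw [e, hP, hP] at h
  have fac : ∀ b : ℂ, |b.im| = v → ‖((x + i ^ 2 : ℤ) : ℂ) + b‖ ≤ (1 + 1 / n) * ‖(x : ℂ) + b‖ := by
    intro b hb
    have e1 := Complex.abs_im_le_norm ((x : ℂ) + b)
    rw [Complex.add_im, Complex.intCast_im, zero_add, hb] at e1
    have e2 : ((x + i ^ 2 : ℤ) : ℂ) + b = ((x : ℂ) + b) + ((i ^ 2 : ℕ) : ℂ) := by push_cast; ring
    have i2' : (i : ℝ) ≤ n := by exact_mod_cast i2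
    have e3 : ((i ^ 2 : ℕ) : ℝ) ≤ 1 / n * ‖(x : ℂ) + b‖ := by
      rw [one_div, inv_mul_eq_div, le_div_iff₀ hn']
      push_cast
      have : (i : ℝ) ^ 2 ≤ n ^ 2 := by gcongr
      nlinarith
    rw [e2]
    refine (norm_add_le _ _).trans ?_
    rw [Complex.norm_natCast]
    linarith
  have hnorm : ‖((YY a a' r v (x + i ^ 2) : GaussianInt) : ℂ)‖ ≤
      3 * ‖((YY a a' r v x : GaussianInt) : ℂ)‖ := by
    rw [YY_coe, YY_coe, norm_mul, norm_mul]
    have p1 := norm_prod_le univ _ _ (1 / n) fun i _ => fac ((a i : ℂ) * r + v * Complex.I) (by simp)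
    have p2 := norm_prod_le univ _ _ (1 / n) fun i _ => fac ((a' i : ℂ) * r - v * Complex.I) (by simp)
    rw [card_univ, Fintype.card_fin] at p1 p2
    refine (mul_le_mul p1 p2 (norm_nonneg _) (by positivity)).trans ?_
    rw [mul_mul_mul_comm, ← Real.exp_add]
    refine mul_le_mul_of_nonneg_right ?_ (by positivity)
    refine le_trans (Real.exp_le_exp.mpr ?_) Real.exp_one_lt_three.le
    have : 2 * (s : ℝ) ≤ n := by exact_mod_cast hn.le
    rw [← add_mul, mul_one_div, div_le_one hn']; linarith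
  have n1 := norm_pos_iff.mpr (YY_ne_zero a a' r v x hv0)
  have n2 := norm_pos_iff.mpr (YY_ne_zero a a' r v (x + i ^ 2) hv0)
  unfold sg
  rw [← mul_div_assoc, div_le_div_iff₀ n1 n2]
  refine (mul_le_mul h hnorm (norm_nonneg _) (by positivity)).trans (le_of_eq ?_)
  ring

lemma YY_end {s : ℕ} (a a' : Fin s → ℕ) (r v J B : ℕ) (hv : 0 < v) (ha : ∀ i, a i ≤ B)
    (ha' : ∀ i, a' i ≤ B)
    (hc : ∀ k < J, (∏ i, (1 + C (a i) * X : ℕ[X])).coeff k = (∏ i, (1 + C (a' i) * X : ℕ[X])).coeff k)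
    (x : ℤ) (hx : 4 * (s * B) * r ≤ x) : sg (YY a a' r v x) ≤ 4 / 3 * (1 / 4) ^ J := by
  have hx0 : (0 : ℝ) ≤ x := by
    have : (0 : ℤ) ≤ x := le_trans (by positivity) hx
    exact_mod_cast this
  have hx' : 4 * ((s : ℝ) * B) * r ≤ x := by exact_mod_cast hx
  obtain ⟨w, hw⟩ : ∃ w : ℂ, w = x + v * Complex.I := ⟨_, rfl⟩
  have hw0 : w ≠ 0 := by
    intro h
    have := congrArg Complex.im (hw.symm.trans h)
    simp at this; omega
  have hwn : (x : ℝ) ≤ ‖w‖ := by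
    have := Complex.re_le_norm w
    rwa [show w.re = x by rw [hw]; simp] at this
  have hwpos := norm_pos_iff.mpr hw0
  obtain ⟨τ, hτ⟩ : ∃ τ : ℂ, τ = r / w := ⟨_, rfl⟩
  have hτn : (s * B : ℝ) * ‖τ‖ ≤ 1 / 4 := by
    rw [hτ, norm_div, Complex.norm_natCast, ← mul_div_assoc, div_le_div_iff₀ hwpos (by norm_num)]
    linarith
  have ev : ∀ b : Fin s → ℕ, ∏ i, (w + b i * r) = w ^ s * aeval τ (∏ i, (1 + C (b i) * X : ℕ[X])) := by
    intro b
    rw [map_prod]
    have : w ^ s = ∏ _i : Fin s, w := by simp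
    rw [this, ← prod_mul_distrib]
    refine prod_congr rfl fun i _ => ?_
    simp only [map_add, map_one, map_mul, aeval_X, eq_natCast, map_natCast, hτ]
    field_simp
  have e1 : ∏ i, ((x : ℂ) + (a i * r + v * Complex.I)) = ∏ i, (w + a i * r) :=
    prod_congr rfl fun i _ => by rw [hw]; ring
  have e2 : ∏ i, ((x : ℂ) + (a' i * r - v * Complex.I)) = conj (∏ i, (w + a' i * r)) := by
    rw [map_prod]
    refine prod_congr rfl fun i _ => ?_
    rw [hw]
    simp only [map_add, map_mul, map_intCast, map_natCast, Complex.conj_I]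
    ring
  have lower : ‖w‖ ^ s ≤ ‖∏ i, (w + a i * r)‖ := by
    rw [norm_prod]
    have : ‖w‖ ^ s = ∏ _i : Fin s, ‖w‖ := by simp
    rw [this]
    refine prod_le_prod (fun i _ => norm_nonneg _) fun i _ => ?_
    rw [← sq_le_sq₀ (norm_nonneg _) (norm_nonneg _), ← Complex.normSq_eq_norm_sq,
      ← Complex.normSq_eq_norm_sq, Complex.normSq_apply, Complex.normSq_apply, hw]
    simp only [Complex.add_re, Complex.intCast_re, Complex.mul_re, Complex.natCast_re,
      Complex.I_re, Complex.natCast_im, Complex.I_im, Complex.add_im, Complex.intCast_im,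
      Complex.mul_im]
    have : (0 : ℝ) ≤ a i * r := by positivity
    nlinarith
  have diff : ‖aeval τ (∏ i, (1 + C (a i) * X : ℕ[X])) - aeval τ (∏ i, (1 + C (a' i) * X : ℕ[X]))‖ ≤
      4 / 3 * (1 / 4) ^ J := by
    have b1 := coeff_prod_le univ a B (fun i _ => ha i)
    have b2 := coeff_prod_le univ a' B (fun i _ => ha' i)
    rw [card_univ, Fintype.card_fin] at b1 b2
    generalize (∏ i, (1 + C (a i) * X : ℕ[X])) = Q at *
    generalize (∏ i, (1 + C (a' i) * X : ℕ[X])) = Q' at *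
    rw [aeval_eq_sum_range' (n := J + Q.natDegree + Q'.natDegree + 1) (by omega),
      aeval_eq_sum_range' (n := J + Q.natDegree + Q'.natDegree + 1) (p := Q') (by omega),
      ← sum_sub_distrib, ← sum_range_add_sum_Ico _ (show J ≤ _ by omega),
      sum_eq_zero (fun k hk => by rw [hc k (mem_range.mp hk), sub_self]), zero_add]
    refine (norm_sum_le _ _).trans ?_
    refine le_trans (sum_le_sum fun k _ => ?_)
      ((geom_sum_Ico_le_of_lt_one (x := (1 / 4 : ℝ)) (by norm_num) (by norm_num)).trans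
        (le_of_eq (by ring)))
    rw [nsmul_eq_mul, nsmul_eq_mul, ← sub_mul, norm_mul, norm_pow]
    have c1 : ((Q.coeff k : ℕ) : ℝ) ≤ (s * B) ^ k := by exact_mod_cast b1 k
    have c2 : ((Q'.coeff k : ℕ) : ℝ) ≤ (s * B) ^ k := by exact_mod_cast b2 k
    have c3 : ‖((Q.coeff k : ℕ) : ℂ) - ((Q'.coeff k : ℕ) : ℂ)‖ ≤ (s * B) ^ k := by
      rw [← Complex.ofReal_natCast, ← Complex.ofReal_natCast, ← Complex.ofReal_sub,
        Complex.norm_real, Real.norm_eq_abs, abs_le]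
      constructor <;> linarith [Nat.cast_nonneg (α := ℝ) (Q.coeff k),
        Nat.cast_nonneg (α := ℝ) (Q'.coeff k)]
    calc _ ≤ (s * B : ℝ) ^ k * ‖τ‖ ^ k := mul_le_mul_of_nonneg_right c3 (by positivity)
      _ = ((s * B : ℝ) * ‖τ‖) ^ k := (mul_pow _ _ _).symm
      _ ≤ _ := pow_le_pow_left₀ (by positivity) hτn k
  have diff' : ‖∏ i, (w + a i * r) - ∏ i, (w + a' i * r)‖ ≤
      4 / 3 * (1 / 4) ^ J * ‖∏ i, (w + a i * r)‖ := by
    conv_lhs => rw [ev, ev, ← mul_sub, norm_mul, norm_pow, mul_comm]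
    exact mul_le_mul diff lower (by positivity) (by positivity)
  have n1 := norm_pos_iff.mpr (YY_ne_zero a a' r v x hv)
  unfold sg
  rw [div_le_iff₀ n1, YY_coe, e1, e2]
  generalize (∏ i, (w + a i * r)) = A at *
  generalize (∏ i, (w + a' i * r)) = A' at *
  have e3 : (A * conj A').im = ((A - A') * conj A').im := by
    rw [sub_mul, Complex.sub_im, Complex.mul_conj, Complex.ofReal_im, sub_zero]
  rw [e3]
  refine (Complex.abs_im_le_norm _).trans ?_
  rw [norm_mul, norm_mul, ← mul_assoc]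
  exact mul_le_mul_of_nonneg_right diff' (norm_nonneg _)

theorem small (J n : ℕ) (hJ : 2 ≤ J) (hn : n = 64 * J ^ 3 + 1) :
    ∃ y : GaussianInt, Cheap (n ^ 7 : ℕ) (n ^ 10) y ∧ gg y = -1 ∧ Close (16 * (1 / 4) ^ J) y 1 := by
  obtain ⟨s, hs⟩ : ∃ s, s = 32 * J ^ 3 := ⟨_, rfl⟩
  obtain ⟨a, a', ha, ha', ⟨i0, h1, h2⟩, hc⟩ := pigeon J s (by omega) hs
  have hns : n = 2 * s + 1 := by rw [hn, hs]; ring
  have hn16 : 16 ≤ n := by
    have : 1 ≤ J ^ 3 := Nat.one_le_pow 3 J (by omega)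
    omega
  have hnZ : (16 : ℤ) ≤ n := by exact_mod_cast hn16
  have hv : 0 < n ^ 3 := by positivity
  have hcheap : ∀ x : ℤ, -(2 * (n : ℤ) ^ 5) ≤ x → x ≤ 8 * (n : ℤ) ^ 6 + n ^ 2 →
      Cheap (n ^ 7 : ℕ) (s + s) (YY a a' (2 * n ^ 4) (n ^ 3) x) := by
    intro x x1 x2
    have hb : ∀ b : ℕ, b ≤ 2 * s → |x + b * ((2 * n ^ 4 : ℕ) : ℤ)| ≤ ((n ^ 7 : ℕ) : ℤ) := by
      intro b hb
      have b1 : (b : ℤ) ≤ n := by omega
      have b0 : (0 : ℤ) ≤ b := by omega
      push_cast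
      have p2 : (n : ℤ) ^ 2 ≤ n ^ 6 := pow_le_pow_right₀ (by omega) (by norm_num)
      have p5 : (n : ℤ) ^ 5 ≤ n ^ 6 := pow_le_pow_right₀ (by omega) (by norm_num)
      have p7 : 16 * (n : ℤ) ^ 6 ≤ n ^ 7 := by
        rw [pow_succ' (n : ℤ) 6]; exact mul_le_mul_of_nonneg_right hnZ (by positivity)
      have p4 : (b : ℤ) * (2 * n ^ 4) ≤ 2 * n ^ 5 := by
        rw [pow_succ' (n : ℤ) 4]; nlinarith [pow_nonneg (show (0 : ℤ) ≤ n by omega) 4]
      have p0 : (0 : ℤ) ≤ b * (2 * n ^ 4) := by positivity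
      have p6 : (0 : ℤ) ≤ n ^ 6 := by positivity
      rw [abs_le]
      constructor <;> linarith
    refine YY_cheap a a' _ _ x _ hv ?_ (fun i => hb _ (ha i)) (fun i => hb _ (ha' i))
    exact_mod_cast Nat.pow_le_pow_right (by omega) (by norm_num)
  have inv : ∀ k : ℕ, ∃ x : ℤ, -(2 * (n : ℤ) ^ 5) ≤ x ∧ x ≤ 8 * (n : ℤ) ^ 6 + n ^ 2 ∧
      (-(2 * (n : ℤ) ^ 5) + k ≤ x ∨ 8 * (n : ℤ) ^ 6 ≤ x) ∧
      ∃ α : ℝ, Odd' (n ^ 7 : ℕ) (1 + k * (24 * n ^ 2)) α ∧
        |α| ≤ 4 * sg (YY a a' (2 * n ^ 4) (n ^ 3) x) := by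
    intro k
    induction k with
    | zero =>
      have hst := YY_start a a' (2 * n ^ 4) (n ^ 3) hv (by
        calc 4 * s * n ^ 3 = 2 * (2 * s) * n ^ 3 := by ring
          _ ≤ 2 * n * n ^ 3 := by gcongr; omega
          _ = _ := by ring) i0 h1 h2
      have hx0 : -(2 * (n : ℤ) ^ 5) ≤ -(a i0 * (2 * n ^ 4) : ℕ) := by
        have b1 : (a i0 : ℤ) ≤ n := by have := ha i0; omega
        push_cast
        rw [pow_succ' (n : ℤ) 4]; nlinarith [pow_nonneg (show (0 : ℤ) ≤ n by omega) 4]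
      refine ⟨-(a i0 * (2 * n ^ 4) : ℕ), hx0, ?_, Or.inl (by simpa using hx0),
        ((⟨1, 1⟩ : GaussianInt) : ℂ).arg, ⟨⟨1, 1⟩, ?_, gg_one_add_i, rep_arg _⟩, ?_⟩
      · refine le_trans (neg_nonpos.mpr (Int.natCast_nonneg _)) (by positivity)
      · refine (Cheap.single (fun h => by simpa using congrArg Zsqrtd.re h) ?_).mono (by omega)
        have : (1 : ℤ) ≤ ((n ^ 7 : ℕ) : ℤ) := by exact_mod_cast Nat.one_le_pow 7 n (by omega)
        exact ⟨this, this⟩
      · have := (Complex.abs_arg_le_pi_div_two_iff (z := ((⟨1, 1⟩ : GaussianInt) : ℂ))).mpr (by simp)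
        linarith [Real.pi_le_four]
    | succ k ih =>
      obtain ⟨x, x1, x2, x3, α, ⟨z, z1, z2, z3⟩, x5⟩ := ih
      by_cases hx : 8 * (n : ℤ) ^ 6 ≤ x
      · exact ⟨x, x1, x2, Or.inr hx, α, ⟨z, z1.mono (by nlinarith), z2, z3⟩, x5⟩
      obtain ⟨i, i1, i2, hi⟩ := YY_step a a' (2 * n ^ 4) (n ^ 3) n (by omega) le_rfl x
      have i3 : (1 : ℤ) ≤ (i : ℤ) ^ 2 := by exact_mod_cast Nat.one_le_pow 2 i (by omega)
      have i4 : (i : ℤ) ^ 2 ≤ (n : ℤ) ^ 2 := by exact_mod_cast Nat.pow_le_pow_left i2 2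
      have x1' : -(2 * (n : ℤ) ^ 5) ≤ x + i ^ 2 := by linarith
      have x2' : x + i ^ 2 ≤ 8 * (n : ℤ) ^ 6 + n ^ 2 := by linarith
      obtain ⟨α', ⟨z', w1, w2, w3⟩, w4⟩ := reduce (hcheap _ x1' x2') (12 * n) _ α ⟨z, z1, z2, z3⟩
        (by push_cast; linarith)
      refine ⟨x + i ^ 2, x1', x2', Or.inl ?_, α', ⟨z', w1.mono ?_, w2, w3⟩, w4⟩
      · have := x3.resolve_right hx
        push_cast; linarith
      · rw [hns]; nlinarith
  obtain ⟨x, x1, x2, x3, α, ⟨z, z1, z2, z3⟩, x5⟩ := inv (10 * n ^ 6)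
  have hx : 8 * (n : ℤ) ^ 6 ≤ x := by
    rcases x3 with h | h
    · have p5 : (n : ℤ) ^ 5 ≤ n ^ 6 := pow_le_pow_right₀ (by omega) (by norm_num)
      push_cast at h; linarith
    · exact h
  have hend := YY_end a a' (2 * n ^ 4) (n ^ 3) J (2 * s) hv ha ha' hc x (by
    refine le_trans ?_ hx
    have : (s : ℤ) * (2 * s) ≤ n ^ 2 := by rw [hns]; push_cast; nlinarith [Int.natCast_nonneg s]
    push_cast
    nlinarith [pow_nonneg (show (0 : ℤ) ≤ n by omega) 4])
  have hq : (1 / 4 : ℝ) ^ J ≤ (1 / 4) ^ 2 := pow_le_pow_of_le_one (by norm_num) (by norm_num) hJ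
  have hq0 : (0 : ℝ) ≤ (1 / 4) ^ J := by positivity
  refine ⟨z, z1.mono ?_, z2, z3.close (by linarith) (by linarith)⟩
  have p8 : 1 ≤ n ^ 8 := Nat.one_le_pow 8 n (by omega)
  calc 1 + 10 * n ^ 6 * (24 * n ^ 2) = 1 + 240 * n ^ 8 := by ring
    _ ≤ 16 * 16 * n ^ 8 := by omega
    _ ≤ n * n * n ^ 8 := by gcongr
    _ = _ := by ring

end Pool.Agent.Lib.MP_de94cf_nt
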