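import Mathlib
import Pool.Agent.Lib.MP_de94cf_nt.Small
import Pool.Agent.Lib.MP_de94cf_nt.Divisor

set_option autoImplicit false

open Finset ArithmeticFunction

namespace Pool.Agent.Lib.MP_de94cf_nt

lemma norm_mul_norm {α β : GaussianInt} (h : det α β = 1) :
    α.norm.natAbs * β.norm.natAbs = (inn α β).natAbs ^ 2 + 1 := by
  zify
  rw [sq_abs, abs_of_nonneg (GaussianInt.norm_nonneg α), abs_of_nonneg (GaussianInt.norm_nonneg β)]
  unfold det at h
  unfold inn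
  simp only [Zsqrtd.norm]
  linear_combination (α.re * β.im - α.im * β.re + 1) * h

lemma assoc_of_norm_eq {α β α' β' : GaussianInt} (h : det α β = 1) (h' : det α' β' = 1)
    (hi : inn α' β' = inn α β) (hn : α'.norm = α.norm) :
    ∃ u ∈ ({1, -1, ⟨0, 1⟩, ⟨0, -1⟩} : Finset GaussianInt), (u * α, u * β) = (α', β') := by
  have hα := (ne_zero_of_det h).1
  have hd : α.norm ≠ 0 := fun h0 => hα (GaussianInt.norm_eq_zero.mp h0)
  obtain ⟨a, b⟩ := α
  obtain ⟨c, d⟩ := β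
  obtain ⟨a', b'⟩ := α'
  obtain ⟨c', d'⟩ := β'
  simp only [det, inn, Zsqrtd.norm] at *
  obtain ⟨p, hp⟩ : ∃ p, p = a' * d - b * c' := ⟨_, rfl⟩
  obtain ⟨q, hq⟩ : ∃ q, q = a' * c - a * c' := ⟨_, rfl⟩
  have e1 : (a * a - -1 * b * b) * p = a * a' + b * b' := by
    rw [hp]
    linear_combination (a * a') * h + (b * b') * h' - (a' * b) * hi + (b * c') * hn
  have e2 : (a * a - -1 * b * b) * q = a * b' - a' * b := by
    rw [hq]
    linear_combination (-(a' * b)) * h + (a * b') * h' - (a * a') * hi + (a * c') * hn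
  have e3 : p * p + q * q = 1 := by
    apply mul_left_cancel₀ (mul_ne_zero hd hd)
    linear_combination ((a * a - -1 * b * b) * p + (a * a' + b * b')) * e1 +
      ((a * a - -1 * b * b) * q + (a * b' - a' * b)) * e2 + (a * a - -1 * b * b) * hn
  have f1 : p * a - q * b = a' := by
    apply mul_left_cancel₀ hd
    linear_combination a * e1 - b * e2
  have f2 : p * b + q * a = b' := by
    apply mul_left_cancel₀ hd
    linear_combination b * e1 + a * e2
  have f3 : p * c - q * d = c' := by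
    apply mul_left_cancel₀ hd
    linear_combination c * e1 - d * e2 - b' * h + b' * h' - a' * hi + c' * hn
  have f4 : p * d + q * c = d' := by
    apply mul_left_cancel₀ hd
    linear_combination d * e1 + c * e2 + a' * h - a' * h' - b' * hi + d' * hn
  refine ⟨⟨p, q⟩, ?_, ?_⟩
  · have p1 : -1 ≤ p := by nlinarith
    have p2 : p ≤ 1 := by nlinarith
    have q1 : -1 ≤ q := by nlinarith
    have q2 : q ≤ 1 := by nlinarith
    clear hp hq e1 e2 f1 f2 f3 f4
    interval_cases p <;> interval_cases q <;> first | omega | decide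
  · ext <;> simp <;> linarith

lemma fiber_le (σ R : ℤ) (n : ℕ) :
    ((Edges σ R).filter (fun e => (inn e.1 e.2).natAbs = n)).card ≤ 4 * tau (n ^ 2 + 1) := by
  refine card_le_mul_card_image_of_maps_to (f := fun e => e.1.norm.natAbs) ?_ 4 ?_
  · intro e he
    obtain ⟨h1, h2⟩ := mem_filter.mp he
    have := norm_mul_norm (mem_Edges.mp h1).2.2.1
    rw [h2] at this
    exact Nat.mem_divisors.mpr ⟨⟨_, this.symm⟩, by omega⟩
  · intro d _
    rcases (((Edges σ R).filter (fun e => (inn e.1 e.2).natAbs = n)).filter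
      (fun e => e.1.norm.natAbs = d)).eq_empty_or_nonempty with h | ⟨e0, h⟩
    · rw [h]; simp
    obtain ⟨a1, a2⟩ := mem_filter.mp h
    obtain ⟨a3, a4⟩ := mem_filter.mp a1
    obtain ⟨_, _, a5, a6, _⟩ := mem_Edges.mp a3
    refine le_trans (card_le_card (t := ({1, -1, ⟨0, 1⟩, ⟨0, -1⟩} : Finset GaussianInt).image
      (fun u => (u * e0.1, u * e0.2))) ?_) (card_image_le.trans card_le_four)
    intro e he
    obtain ⟨b1, b2⟩ := mem_filter.mp he
    obtain ⟨b3, b4⟩ := mem_filter.mp b1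
    obtain ⟨_, _, b5, b6, _⟩ := mem_Edges.mp b3
    refine mem_image.mpr (assoc_of_norm_eq a5 b5 (by omega) ?_)
    have := GaussianInt.norm_nonneg e.1
    have := GaussianInt.norm_nonneg e0.1
    omega

lemma edges_neg_le (R : ℤ) : (Edges (-1) R).card ≤ 2 * (Edges 1 (2 * R)).card := by
  refine card_le_mul_card_image_of_maps_to
    (f := fun e => if gg (e.1 + e.2) = gg e.1 then (e.1, e.1 + e.2) else (e.1 + e.2, e.2)) ?_ 2 ?_
  · intro e he
    obtain ⟨a1, a2, a3, a4, a5⟩ := mem_Edges.mp he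
    obtain ⟨n1, n2⟩ := ne_zero_of_det a3
    have hR : 0 ≤ R := (abs_nonneg _).trans a1.1
    have hb : Box (2 * R) (e.1 + e.2) := by
      constructor
      · rw [Zsqrtd.re_add]; linarith [abs_add_le e.1.re e.2.re, a1.1, a2.1]
      · rw [Zsqrtd.im_add]; linarith [abs_add_le e.1.im e.2.im, a1.2, a2.2]
    have d1 : det e.1 (e.1 + e.2) = 1 := by
      refine Eq.trans ?_ a3; simp [det]; ring
    have d2 : det (e.1 + e.2) e.2 = 1 := by
      refine Eq.trans ?_ a3; simp [det]; ring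
    split_ifs with h
    · refine mem_Edges.mpr ⟨a1.mono (by omega), hb, d1, ?_, ?_⟩
      · simp only [inn, Zsqrtd.re_add, Zsqrtd.im_add] at *
        nlinarith [mul_self_nonneg e.1.re, mul_self_nonneg e.1.im]
      · simp only [h]; exact gg_sq n1
    · refine mem_Edges.mpr ⟨hb, a2.mono (by omega), d2, ?_, ?_⟩
      · simp only [inn, Zsqrtd.re_add, Zsqrtd.im_add] at *
        nlinarith [mul_self_nonneg e.2.re, mul_self_nonneg e.2.im]
      · rcases gg_cases n1 with x | x <;> rcases gg_cases n2 with y | y <;>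
          rcases gg_cases (ne_zero_of_det d2).1 with z | z <;> simp_all
  · intro e' _
    refine le_trans (card_le_card (t := {(e'.1, e'.2 - e'.1), (e'.1 - e'.2, e'.2)}) ?_) card_le_two
    intro e he
    have h := (mem_filter.mp he).2
    rw [← h]
    split_ifs <;> simp

lemma count_ge (σ R : ℤ) (N : ℕ) (hN : 2 * R ^ 2 ≤ N) :
    ((Edges σ R).card : ℝ) ^ 2 ≤
      ((Icc 1 N).filter (fun n => liouville (n ^ 2 + 1) = σ)).card *
        (128 * N * (1 + Real.log N) ^ 128) := by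
  have hmap : ∀ e ∈ Edges σ R,
      (inn e.1 e.2).natAbs ∈ (Icc 1 N).filter (fun n => liouville (n ^ 2 + 1) = σ) := by
    intro e he
    obtain ⟨a1, a2, a3, a4, a5⟩ := mem_Edges.mp he
    refine mem_filter.mpr ⟨mem_Icc.mpr ⟨by omega, ?_⟩, by rw [← gg_edge a3, a5]⟩
    have hR : 0 ≤ R := (abs_nonneg _).trans a1.1
    have m : ∀ {a b : ℤ}, |a| ≤ R → |b| ≤ R → a * b ≤ R * R := fun ha hb => by
      refine (le_abs_self _).trans ?_
      rw [abs_mul]; exact mul_le_mul ha hb (abs_nonneg _) hR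
    have : inn e.1 e.2 ≤ N := by
      unfold inn
      nlinarith [m a1.1 a2.1, m a1.2 a2.2]
    omega
  rw [card_eq_sum_card_fiberwise hmap]
  push_cast
  refine sq_sum_le_card_mul_sum_sq.trans (mul_le_mul_of_nonneg_left ?_ (Nat.cast_nonneg _))
  calc _ ≤ ∑ n ∈ (Icc 1 N).filter (fun n => liouville (n ^ 2 + 1) = σ),
        16 * (tau (n ^ 2 + 1) : ℝ) ^ 2 := by
        refine sum_le_sum fun n _ => ?_
        have : (((Edges σ R).filter (fun e => (inn e.1 e.2).natAbs = n)).card : ℝ) ≤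
            4 * (tau (n ^ 2 + 1) : ℝ) := by exact_mod_cast fiber_le σ R n
        calc _ ≤ (4 * (tau (n ^ 2 + 1) : ℝ)) ^ 2 := by gcongr
          _ = _ := by ring
    _ ≤ ∑ n ∈ Icc 1 N, 16 * (tau (n ^ 2 + 1) : ℝ) ^ 2 :=
        sum_le_sum_of_subset_of_nonneg (filter_subset _ _) fun _ _ _ => by positivity
    _ ≤ _ := by
        rw [← mul_sum]
        linarith [second_moment N]

lemma edges_ge (J n K : ℕ) (hJ : 2 ≤ J) (hn : n = 64 * J ^ 3 + 1) (hK : 1 ≤ K)
    (hJK : 8 * (K * (600 * n ^ 10 * K)) ≤ 4 ^ J) :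
    4 * K ^ 2 ≤ (Edges (-1) (2 * (n ^ 7 : ℕ) * (600 * n ^ 10 * K : ℕ))).card := by
  obtain ⟨y, ⟨L, l1, l2, rfl⟩, hg, hc⟩ := small J n hJ hn
  have hn0 : 0 < n := by omega
  have hW : 1 ≤ n ^ 10 := Nat.one_le_pow _ _ hn0
  have hK' : (1 : ℝ) ≤ K := by exact_mod_cast hK
  have hW' : (1 : ℝ) ≤ (n ^ 10 : ℕ) := by exact_mod_cast hW
  have h := cover (600 * n ^ 10 * K) K (n ^ 7) (by nlinarith) hK (Nat.one_le_pow _ _ hn0) L l2 hg
    (hc.mono (by positivity) (by
      have : (8 * (K * (600 * n ^ 10 * K : ℕ)) : ℝ) ≤ 4 ^ J := by exact_mod_cast hJK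
      rw [one_div, inv_pow, ← div_eq_mul_inv, div_le_div_iff₀ (by positivity) (by positivity)]
      linarith))
  have l1' : (L.length : ℝ) + 1 ≤ 2 * (n ^ 10 : ℕ) := by
    have : (L.length : ℝ) ≤ (n ^ 10 : ℕ) := by exact_mod_cast l1
    linarith
  generalize (Edges (-1) (2 * (n ^ 7 : ℕ) * (600 * n ^ 10 * K : ℕ))).card = S at *
  generalize n ^ 10 = W at *
  have h2 := h.trans (mul_le_mul_of_nonneg_right l1' (by positivity))
  push_cast at h2
  have e : 2 * (W : ℝ) * (144 * K / (600 * W * K) + 36 / (K * (600 * W * K)) * S) =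
      12 / 25 + 3 / 25 * S / K ^ 2 := by
    field_simp
    ring
  rw [e] at h2
  have h3 : (13 / 25 : ℝ) ≤ 3 / 25 * S / K ^ 2 := by linarith
  rw [le_div_iff₀ (by positivity)] at h3
  have h4 : 4 * (K : ℝ) ^ 2 ≤ S := by nlinarith [sq_nonneg (K : ℝ)]
  exact_mod_cast h4

lemma main_aux (N n : ℕ) (hn : n = 64 * (Nat.log 2 N + 1) ^ 3 + 1) (hN : 2 ^ 24 * n ^ 40 ≤ N)
    (σ : ℤ) (hσ : σ = 1 ∨ σ = -1) :
    (N : ℝ) ≤ ((Icc 1 N).filter (fun n => liouville (n ^ 2 + 1) = σ)).card *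
        (512 * (2 ^ 24 * n ^ 40) ^ 2 * (1 + Real.log N) ^ 128) := by
  have hn0 : 0 < n := by omega
  obtain ⟨C, hC⟩ : ∃ C, C = 2 ^ 24 * n ^ 40 := ⟨_, rfl⟩
  have hC8 : 8 ≤ C := by
    have : 1 ≤ n ^ 40 := Nat.one_le_pow _ _ hn0
    omega
  rw [← hC] at hN
  obtain ⟨K, hK⟩ : ∃ K, K = Nat.sqrt (N / C) := ⟨_, rfl⟩
  have k1 : 1 ≤ K := by
    rw [hK, Nat.le_sqrt]
    exact (Nat.le_div_iff_mul_le (by omega)).mpr (by omega)
  have k2 : C * K ^ 2 ≤ N := by
    have : K ^ 2 ≤ N / C := hK ▸ Nat.sqrt_le' _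
    exact (Nat.mul_le_mul_left C this).trans (Nat.mul_div_le N C)
  have k3 : N ≤ 4 * C * K ^ 2 := by
    have h1 : N / C < (K + 1) ^ 2 := hK ▸ Nat.lt_succ_sqrt' _
    have h2 := (Nat.div_lt_iff_lt_mul (show 0 < C by omega)).mp h1
    have h3 : (K + 1) ^ 2 ≤ 4 * K ^ 2 := by nlinarith
    nlinarith
  have hlog : 1 ≤ Nat.log 2 N := Nat.log_pos (by norm_num) (by omega)
  have hJ : N < 2 ^ (Nat.log 2 N + 1) := Nat.lt_pow_succ_log_self (by norm_num) N
  have p1 : n ^ 10 ≤ n ^ 40 := Nat.pow_le_pow_right hn0 (by norm_num)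
  have hE := edges_ge (Nat.log 2 N + 1) n K (by omega) hn k1 (by
    have e : 4 ^ (Nat.log 2 N + 1) = 2 ^ (Nat.log 2 N + 1) * 2 ^ (Nat.log 2 N + 1) := by
      rw [← mul_pow]; norm_num
    have h1 : K * (600 * n ^ 10 * K) ≤ N := by
      refine le_trans ?_ k2
      calc K * (600 * n ^ 10 * K) = 600 * n ^ 10 * K ^ 2 := by ring
        _ ≤ _ := Nat.mul_le_mul_right _ (by omega)
    rw [e]
    exact Nat.mul_le_mul (by omega) (by omega))
  obtain ⟨R, hR⟩ : ∃ R : ℤ, R = 2 * (n ^ 7 : ℕ) * (600 * n ^ 10 * K : ℕ) := ⟨_, rfl⟩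
  rw [← hR] at hE
  have hR2 : 8 * R ^ 2 ≤ N := by
    have h1 : 8 * (2 * n ^ 7 * (600 * n ^ 10 * K)) ^ 2 ≤ N := by
      refine le_trans ?_ k2
      have p2 : n ^ 34 ≤ n ^ 40 := Nat.pow_le_pow_right hn0 (by norm_num)
      calc 8 * (2 * n ^ 7 * (600 * n ^ 10 * K)) ^ 2 = 11520000 * n ^ 34 * K ^ 2 := by ring
        _ ≤ _ := Nat.mul_le_mul_right _ (by omega)
    rw [hR]
    exact_mod_cast h1
  have key : ∃ R' : ℤ, 2 * R' ^ 2 ≤ N ∧ 2 * K ^ 2 ≤ (Edges σ R').card := by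
    rcases hσ with rfl | rfl
    · exact ⟨2 * R, by linarith, by have := edges_neg_le R; omega⟩
    · exact ⟨R, by nlinarith [sq_nonneg R], by omega⟩
  obtain ⟨R', r1, r2⟩ := key
  have h := count_ge σ R' N r1
  have r3 : (N : ℝ) ≤ 2 * C * (Edges σ R').card := by
    have : N ≤ 2 * C * (Edges σ R').card := by nlinarith
    exact_mod_cast this
  have hN0 : (0 : ℝ) < N := by exact_mod_cast (by omega : 0 < N)
  have hC' : (2 : ℝ) ^ 24 * n ^ 40 = C := by rw [hC]; push_cast; ring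
  rw [hC']
  apply le_of_mul_le_mul_left _ hN0
  calc (N : ℝ) * N = N ^ 2 := by ring
    _ ≤ (2 * C * (Edges σ R').card) ^ 2 := by gcongr
    _ = 4 * C ^ 2 * ((Edges σ R').card : ℝ) ^ 2 := by ring
    _ ≤ 4 * C ^ 2 * _ := mul_le_mul_of_nonneg_left h (by positivity)
    _ = _ := by ring

theorem main : ∀ᶠ N : ℕ in Filter.atTop, ∀ σ : ℤ, σ = 1 ∨ σ = -1 →
    (N : ℝ) / Real.log N ^ 600 ≤
      ((Icc 1 N).filter (fun n => liouville (n ^ 2 + 1) = σ)).card := by
  have t1 : ∀ᶠ N : ℕ in Filter.atTop, (2000 : ℝ) ≤ Real.log N :=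
    (Real.tendsto_log_atTop.comp tendsto_natCast_atTop_atTop).eventually_ge_atTop _
  have t2 : ∀ᶠ N : ℕ in Filter.atTop, Real.log N ^ 163 ≤ N := by
    have := (Real.isLittleO_pow_log_id_atTop (n := 163)).bound (c := 1) one_pos
    filter_upwards [tendsto_natCast_atTop_atTop.eventually this] with N hN
    rw [one_mul, Real.norm_eq_abs, Real.norm_eq_abs, id, Nat.abs_cast] at hN
    exact (le_abs_self _).trans hN
  filter_upwards [t1, t2, Filter.eventually_ge_atTop 1] with N h1 h2 h3 σ hσ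
  obtain ⟨n, hn⟩ : ∃ n, n = 64 * (Nat.log 2 N + 1) ^ 3 + 1 := ⟨_, rfl⟩
  have a1 : (Nat.log 2 N : ℝ) ≤ 2 * Real.log N := by
    have b1 : ((2 ^ Nat.log 2 N : ℕ) : ℝ) ≤ N := by
      exact_mod_cast Nat.pow_log_le_self 2 (by omega : N ≠ 0)
    have b2 := Real.log_le_log (by positivity) b1
    push_cast at b2
    rw [Real.log_pow] at b2
    nlinarith [Real.log_two_gt_d9, Nat.cast_nonneg (α := ℝ) (Nat.log 2 N)]
  have aux := main_aux N n hn
  generalize Real.log N = L at *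
  have a2 : (n : ℝ) ≤ L ^ 4 := by
    rw [hn]
    push_cast
    have b1 : ((Nat.log 2 N : ℝ) + 1) ^ 3 ≤ (3 * L) ^ 3 := by gcongr; linarith
    have b2 : 1 ≤ L ^ 3 := one_le_pow₀ (by linarith)
    nlinarith
  have a3 : (2 : ℝ) ^ 24 * n ^ 40 ≤ L ^ 163 := by
    calc (2 : ℝ) ^ 24 * n ^ 40 = (2 ^ 8) ^ 3 * n ^ 40 := by norm_num
      _ ≤ L ^ 3 * (L ^ 4) ^ 40 := by gcongr; linarith
      _ = _ := by ring
  have a4 := aux (by exact_mod_cast a3.trans h2) σ hσ
  have hL : 0 < L := by linarith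
  rw [div_le_iff₀ (by positivity)]
  refine a4.trans (mul_le_mul_of_nonneg_left ?_ (Nat.cast_nonneg _))
  calc (512 : ℝ) * (2 ^ 24 * n ^ 40) ^ 2 * (1 + L) ^ 128 ≤ L * (L ^ 163) ^ 2 * (L ^ 2) ^ 128 := by
        gcongr
        · linarith
        · nlinarith
    _ = L ^ 583 := by ring
    _ ≤ _ := pow_le_pow_right₀ (by linarith) (by norm_num)

end Pool.Agent.Lib.MP_de94cf_nt
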